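import Pool.Agent.Work.MP_d0224f_na.Growth

/-!
# Relative bend and break
-/

set_option autoImplicit false

namespace Pool.NA

open Finset

/-- Numerical bend and break: disjoint sets `side x`, `x ∈ B`, each with `∑ e_i = α > 0`, and
`∑ e_i ^ 2 ≤ 2 α d` give an `i` with `0 < e_i` and `|B| e_i ≤ 2 d`. -/
theorem select {ι β : Type} [Fintype ι] (B : Finset β) (side : β → Finset ι)
    (hdisj : ∀ x ∈ B, ∀ y ∈ B, x ≠ y → Disjoint (side x) (side y)) (e : ι → ℝ)
    (he : ∀ i, 0 ≤ e i) (α d : ℝ) (hα : 0 < α) (hB : 0 < B.card)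
    (hsum : ∀ x ∈ B, α = ∑ i ∈ side x, e i) (hsq : ∑ i, e i ^ 2 ≤ 2 * α * d) :
    ∃ x ∈ B, ∃ i ∈ side x, 0 < e i ∧ B.card * e i ≤ 2 * d := by
  classical
  by_contra hcon
  push Not at hcon
  have hBpos : (0:ℝ) < B.card := by exact_mod_cast hB
  -- every term
  have hterm : ∀ x ∈ B, ∀ i ∈ side x, 2 * d * e i ≤ B.card * e i ^ 2 := by
    intro x hx i hi
    rcases (he i).eq_or_lt with h | h
    · rw [← h]
      simp
    · have := hcon x hx i hi h
      nlinarith
  have hstrict : ∀ x ∈ B, 2 * d * α < B.card * ∑ i ∈ side x, e i ^ 2 := by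
    intro x hx
    rw [hsum x hx, mul_sum, mul_sum]
    refine sum_lt_sum (fun i hi => hterm x hx i hi) ?_
    have : ∃ i ∈ side x, 0 < e i := by
      by_contra h
      push Not at h
      have : ∑ i ∈ side x, e i ≤ 0 := sum_nonpos h
      rw [← hsum x hx] at this
      linarith
    obtain ⟨i, hi, hpos⟩ := this
    refine ⟨i, hi, ?_⟩
    have := hcon x hx i hi hpos
    nlinarith
  have h1 : ∑ x ∈ B, (2 * d * α) < ∑ x ∈ B, B.card * ∑ i ∈ side x, e i ^ 2 :=
    sum_lt_sum_of_nonempty (card_pos.1 hB) hstrict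
  rw [sum_const, nsmul_eq_mul, ← mul_sum, ← sum_biUnion (fun x hx y hy hxy =>
    hdisj x hx y hy hxy)] at h1
  have h2 : ∑ i ∈ B.biUnion side, e i ^ 2 ≤ ∑ i, e i ^ 2 :=
    sum_le_sum_of_subset_of_nonneg (subset_univ _) (fun i _ _ => sq_nonneg _)
  have h3 := lt_of_mul_lt_mul_left h1 hBpos.le
  linarith

section

variable {k : Type} [Field k] {n p : ℕ} {X : PVar k n} {K : X.Pic} {F : Fibration X K p}

/-- **First horizontal component.** If `i` lies on the side over `x`, where `h (x)` is very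
general, and all components of `E_i` are `L`-trivial, then all of them are contracted by `q'`. -/
theorem no_horizontal {L : X.Pic} {G : Set F.T}
    (hG : ∀ τ ∈ G, ∀ r, F.meets r τ → F.degR r L = 0 → F.tdegR r = 0)
    {b : F.Base} {f : F.Lift b} {B : Finset (F.Pt b)} (Y : Family F.toFibData f B)
    {x : F.Pt b} (hx : x ∈ B) (hxG : F.im x ∈ G) {i : Y.ι} (hi : i ∈ Y.side x)
    (hL : ∀ c, 0 < Y.mult i c → F.degR (Y.r c) L = 0) :
    ∀ c, 0 < Y.mult i c → F.tdegR (Y.r c) = 0 := by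
  obtain ⟨c₀, hc₀, hm₀⟩ := Y.touch x hx i hi
  have h0 : F.tdegR (Y.r c₀) = 0 := hG _ hxG _ hm₀ (hL c₀ hc₀)
  have key : ∀ c, Relation.ReflTransGen (fun d d' => 0 < Y.mult i d' ∧
      ∃ τ, F.meets (Y.r d) τ ∧ F.meets (Y.r d') τ) c₀ c →
      F.meets (Y.r c) (F.im x) ∧ F.tdegR (Y.r c) = 0 := by
    intro c hc
    induction hc with
    | refl => exact ⟨hm₀, h0⟩
    | tail _ hstep ih =>
      obtain ⟨hd', τ, hτ, hτ'⟩ := hstep
      have : τ = F.im x := F.meets_unique _ ih.2 _ _ hτ ih.1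
      subst this
      exact ⟨hτ', hG _ hxG _ hτ' (hL _ hd')⟩
  intro c hc
  exact (key c (Y.conn i c₀ c hc₀ hc)).2

/-- **The moving case is impossible** if the degree of `f` is small compared with `|B|`. -/
theorem moving_false {L : X.Pic} (hLn : X.Nef L) {G : Set F.T}
    (hG : ∀ τ ∈ G, ∀ r, F.meets r τ → F.degR r L = 0 → F.tdegR r = 0)
    {b : F.Base} {f : F.Lift b} {B : Finset (F.Pt b)} (Y : Family F.toFibData f B)
    (hBG : ∀ x ∈ B, F.im x ∈ G) (hB : 0 < B.card) (hαT : 0 < Y.αT) (ε : ℝ) (hε : 0 < ε)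
    (hsmall : 2 * ((F.degL f L : ℝ) + ε * F.degL f F.P) < B.card) : False := by
  set e : Y.ι → ℝ := fun i => ∑ c, (Y.mult i c : ℝ) *
    (1 * F.degR (Y.r c) L + ε * F.tdegR (Y.r c)) with he
  have hterm : ∀ i c, 0 ≤ (Y.mult i c : ℝ) *
      (1 * F.degR (Y.r c) L + ε * F.tdegR (Y.r c)) := by
    intro i c
    have h1 : (0:ℝ) ≤ F.degR (Y.r c) L := by exact_mod_cast F.degR_nonneg (Y.r c) L hLn
    have h2 : (0:ℝ) ≤ F.tdegR (Y.r c) := by exact_mod_cast F.tdegR_nonneg (Y.r c)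
    positivity
  have he0 : ∀ i, 0 ≤ e i := fun i => sum_nonneg fun c _ => hterm i c
  have hα : 0 < (1:ℝ) * Y.α L + ε * Y.αT := by
    have h1 : (0:ℝ) ≤ Y.α L := by exact_mod_cast Y.α_nonneg L hLn
    have h2 : (0:ℝ) < Y.αT := by exact_mod_cast hαT
    nlinarith [mul_pos hε h2]
  have hsum : ∀ x ∈ B, (1:ℝ) * Y.α L + ε * Y.αT = ∑ i ∈ Y.side x, e i := by
    intro x hx
    have h1 : (Y.α L : ℝ) = ∑ i ∈ Y.side x, ∑ c, (Y.mult i c : ℝ) * F.degR (Y.r c) L := by
      exact_mod_cast Y.contr x hx L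
    have h2 : (Y.αT : ℝ) = ∑ i ∈ Y.side x, ∑ c, (Y.mult i c : ℝ) * F.tdegR (Y.r c) := by
      exact_mod_cast Y.contrT x hx
    rw [h1, h2, one_mul, mul_sum, ← sum_add_distrib]
    refine sum_congr rfl fun i _ => ?_
    rw [he, mul_sum, ← sum_add_distrib]
    refine sum_congr rfl fun c _ => ?_
    ring
  have hsq := Y.hodge L hLn 1 ε zero_le_one hε.le
  obtain ⟨x, hx, i, hi, hpos, hle⟩ := select B Y.side Y.side_disj e he0 _ _ hα hB hsum hsq
  have hlt : e i < 1 := by
    have h1 : (B.card : ℝ) * e i < B.card * 1 := by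
      calc (B.card : ℝ) * e i ≤ 2 * (1 * (F.degL f L : ℝ) + ε * F.degL f F.P) := hle
        _ = 2 * ((F.degL f L : ℝ) + ε * F.degL f F.P) := by ring
        _ < B.card := hsmall
        _ = B.card * 1 := (mul_one _).symm
    exact lt_of_mul_lt_mul_left h1 (by positivity)
  -- the `L`-degree of `E_i` is an integer in `[0, 1)`
  have hLi : ∑ c, (Y.mult i c : ℤ) * F.degR (Y.r c) L = 0 := by
    have h0 : 0 ≤ ∑ c, (Y.mult i c : ℤ) * F.degR (Y.r c) L :=
      sum_nonneg fun c _ => mul_nonneg (by positivity) (F.degR_nonneg _ L hLn)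
    have h1 : ((∑ c, (Y.mult i c : ℤ) * F.degR (Y.r c) L : ℤ) : ℝ) ≤ e i := by
      push_cast
      refine sum_le_sum fun c _ => ?_
      have h2 : (0:ℝ) ≤ F.tdegR (Y.r c) := by exact_mod_cast F.tdegR_nonneg (Y.r c)
      refine mul_le_mul_of_nonneg_left ?_ (by positivity)
      nlinarith [mul_nonneg hε.le h2]
    have h3 : ((∑ c, (Y.mult i c : ℤ) * F.degR (Y.r c) L : ℤ) : ℝ) < 1 := lt_of_le_of_lt h1 hlt
    have h4 : ∑ c, (Y.mult i c : ℤ) * F.degR (Y.r c) L < 1 := by exact_mod_cast h3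
    omega
  have hLc : ∀ c, 0 < Y.mult i c → F.degR (Y.r c) L = 0 := by
    intro c hc
    have h := (sum_eq_zero_iff_of_nonneg fun c _ => mul_nonneg (by positivity)
      (F.degR_nonneg _ L hLn)).1 hLi c (mem_univ c)
    rcases mul_eq_zero.1 h with h | h
    · exfalso
      have : Y.mult i c = 0 := by exact_mod_cast h
      omega
    · exact h
  have hT := no_horizontal hG Y hx (hBG x hx) hi hLc
  have : e i = 0 := by
    rw [he]
    refine sum_eq_zero fun c _ => ?_
    rcases Nat.eq_zero_or_pos (Y.mult i c) with h | h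
    · rw [h]
      simp
    · rw [hLc c h, hT c h]
      simp
  linarith

/-- **The vertical case**: the family degenerates to a lift with the same `L`-degree and smaller
degree with respect to every ample line bundle. -/
theorem vertical_smaller {L H : X.Pic} (hq : IsQuotient F L) (hH : X.Ample H)
    {b : F.Base} {f : F.Lift b} {B : Finset (F.Pt b)} (Y : Family F.toFibData f B)
    (hB : B.Nonempty) (hαT : Y.αT = 0) :
    ∃ f'' : F.Lift b, F.degL f'' L = F.degL f L ∧ F.degL f'' H < F.degL f H := by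
  obtain ⟨f'', Z, hZ0, hZv, hdeg⟩ := Y.vertical hB hαT
  refine ⟨f'', ?_, ?_⟩
  · rw [hdeg L]
    have : (Z.map fun C => X.deg C L).sum = 0 := by
      refine Multiset.sum_eq_zero fun a ha => ?_
      obtain ⟨C, hC, rfl⟩ := Multiset.mem_map.1 ha
      exact hq.triv C (hZv C hC)
    rw [this, add_zero]
  · rw [hdeg H]
    have : 0 < (Z.map fun C => X.deg C H).sum := by
      obtain ⟨C, Z', rfl⟩ : ∃ C Z', Z = C ::ₘ Z' := by
        obtain ⟨C, hC⟩ := Multiset.exists_mem_of_ne_zero hZ0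
        exact ⟨C, _, (Multiset.exists_cons_of_mem hC).choose_spec⟩
      rw [Multiset.map_cons, Multiset.sum_cons]
      refine add_pos_of_pos_of_nonneg (X.deg_ample H hH C) ?_
      refine Multiset.sum_nonneg fun a ha => ?_
      obtain ⟨C', _, rfl⟩ := Multiset.mem_map.1 ha
      exact (X.deg_ample H hH C').le
    linarith

/-- Among the lifts of `h` with given `L`-degree there is one with minimal `H`-degree. -/
theorem exists_minimal {L H : X.Pic} (hH : X.Nef H) {b : F.Base} (f : F.Lift b) :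
    ∃ f' : F.Lift b, F.degL f' L = F.degL f L ∧
      ∀ g : F.Lift b, F.degL g L = F.degL f L → F.degL f' H ≤ F.degL g H := by
  classical
  have hex : ∃ k : ℕ, ∃ f' : F.Lift b, F.degL f' L = F.degL f L ∧ (F.degL f' H).toNat = k :=
    ⟨_, f, rfl, rfl⟩
  obtain ⟨f', h1, h2⟩ := Nat.find_spec hex
  refine ⟨f', h1, fun g hg => ?_⟩
  have h3 : Nat.find hex ≤ (F.degL g H).toNat := Nat.find_min' hex ⟨g, hg, rfl⟩
  rw [← h2] at h3
  have h4 := F.degL_nonneg f' H hH
  have h5 := F.degL_nonneg g H hH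
  omega

end

end Pool.NA
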