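import Mathlib

/-!
# Nef divisors on Fano varieties in characteristic `p`: the setting

`k` is an algebraically closed field of characteristic `p > 0`. The structures of this file collect
the objects of the proof together with published facts about them. Every field is a datum, a
standard property or a published theorem, with a reference or the short reason. Nothing about base
point freeness of nef divisors on `X`, about abundance, about lifting to characteristic zero or
about vanishing theorems is assumed.

References: [Ko] J. Kollár, Rational curves on algebraic varieties; [KM] J. Kollár, S. Mori,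
Birational geometry of algebraic varieties; [La] R. Lazarsfeld, Positivity in algebraic geometry I;
[Ke] S. Keel, Basepoint freeness for nef and big line bundles in positive characteristic (1999);
[CTX] P. Cascini, H. Tanaka, C. Xu, On base point freeness in positive characteristic (2015).
-/

set_option autoImplicit false

namespace Pool.NA

open Finset

/-- For an algebraically closed field `k` of characteristic `p > 0` this says that `k` is an
algebraic closure of the field with `p` elements. -/
def OverFp (k : Type) [Field k] : Prop := ∀ x : k, x = 0 ∨ ∃ m : ℕ, 0 < m ∧ x ^ m = 1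

/-- `h` grows at least like `m ^ t` along the multiples of some `m₀`. For
`h m = dim H⁰ (X, m L)` this says that the Iitaka dimension `κ (L)` is at least `t`. -/
def Grows (h : ℕ → ℕ) (t : ℕ) : Prop :=
  ∃ c : ℝ, 0 < c ∧ ∃ m₀ : ℕ, 0 < m₀ ∧ ∀ m : ℕ, 1 ≤ m → c * (m : ℝ) ^ t ≤ h (m * m₀)

/-- The intersection theory of an integral projective variety `X` of dimension `n` over `k`:
Picard group, intersection numbers of `n` line bundles, integral curves and prime divisors, numbers
of sections, ample and base point free line bundles. -/
structure PVar (k : Type) [Field k] (n : ℕ) where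
  /-- the Picard group -/
  Pic : Type
  [grp : AddCommGroup Pic]
  /-- intersection numbers `(D_1 ⋯ D_n)` -/
  inter : MultilinearMap ℤ (fun _ : Fin n => Pic) ℤ
  /-- they are symmetric -/
  inter_perm : ∀ (v : Fin n → Pic) (σ : Equiv.Perm (Fin n)), inter (fun j => v (σ j)) = inter v
  /-- integral curves `C` in `X`, over an uncountable algebraically closed extension field (this does
  not change the nef line bundles) -/
  Curve : Type
  /-- `deg C D = D · C` -/
  deg : Curve → Pic →+ ℤ
  /-- integral closed subvarieties `Z` of codimension one -/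
  Div : Type
  /-- intersection numbers `(D_1 ⋯ D_(n-1) · Z)` -/
  interD : Div → MultilinearMap ℤ (fun _ : Fin (n - 1) => Pic) ℤ
  /-- `h0 D = dim H⁰ (X, D)` -/
  h0 : Pic → ℕ
  /-- ample line bundles -/
  Ample : Pic → Prop
  /-- base point free (globally generated) line bundles -/
  Bpf : Pic → Prop
  /-- Kleiman: intersection numbers of nef line bundles are nonnegative, [La, 1.4.9] -/
  inter_nonneg : ∀ v : Fin n → Pic, (∀ j C, 0 ≤ deg C (v j)) → 0 ≤ inter v
  inter_ample : ∀ A, Ample A → 0 < inter (fun _ => A)
  deg_ample : ∀ A, Ample A → ∀ C, 0 < deg C A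
  /-- ample plus nef is ample (Kleiman), [La, 1.4.10] -/
  ample_add_nef : ∀ A D, Ample A → (∀ C, 0 ≤ deg C D) → Ample (A + D)
  /-- `m D` is ample if and only if `D` is -/
  ample_smul : ∀ D (m : ℕ), 0 < m → (Ample (m • D) ↔ Ample D)
  /-- `m A - D` is ample for large `m` -/
  exists_ample_sub : ∀ A, Ample A → ∀ D, ∃ m : ℕ, 0 < m ∧ Ample (m • A - D)
  bpf_of_ample : ∀ A, Ample A → ∃ m : ℕ, 0 < m ∧ Bpf (m • A)
  /-- a nef line bundle with positive self-intersection number is big, [La, 2.2.16] -/
  big_of_nef : ∀ N, (∀ C, 0 ≤ deg C N) → 0 < inter (fun _ => N) → Grows (fun m => h0 (m • N)) n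
  /-- Hodge index theorem: the form `x · y · v_3 ⋯ v_n` (`v` nef; `x`, `y` in the positions `i`,
  `j`) has at most one positive eigenvalue, [La, 1.6.1] -/
  hodge : ∀ (v : Fin n → Pic) (i j : Fin n), i ≠ j → (∀ l C, 0 ≤ deg C (v l)) → ∀ x y : Pic,
    0 < inter (Function.update (Function.update v i y) j y) →
    inter (Function.update (Function.update v i x) j x) *
      inter (Function.update (Function.update v i y) j y) ≤
      inter (Function.update (Function.update v i x) j y) ^ 2
  /-- points and curves: ample means positive degree -/
  ample_of_dim_le_one : n ≤ 1 → ∀ D, 0 < inter (fun _ => D) → Ample D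
  /-- Nakai's criterion for surfaces -/
  nakai : n = 2 → ∀ D, (∀ C, 0 ≤ deg C D) → 0 < inter (fun _ => D) →
    (∀ Z, interD Z (fun _ => D) ≠ 0) → Ample D
  /-- Artin, [Ke, 0.2, 0.5]: over an algebraic closure of a finite field nef and big line bundles
  on projective surfaces are semiample -/
  artin : OverFp k → n = 2 → ∀ D, (∀ C, 0 ≤ deg C D) → 0 < inter (fun _ => D) →
    ∃ m : ℕ, 0 < m ∧ Bpf (m • D)
  /-- [Ke, 0.2]: a nef and big line bundle `D` on a projective threefold in characteristic `p > 0`
  is semiample if its restriction to the exceptional locus `E (D)` is; `E (D)` is the union of the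
  surfaces `Z` with `D ^ 2 · Z = 0` and of the curves `C` with `D · C = 0`. Over an algebraic
  closure of a finite field numerically trivial line bundles on projective schemes are torsion. -/
  keel : OverFp k → n = 3 → ∀ D, (∀ C, 0 ≤ deg C D) → 0 < inter (fun _ => D) →
    (∀ Z, interD Z (fun _ => D) = 0 → ∀ E i, interD Z (Function.update (fun _ => D) i E) = 0) →
    ∃ m : ℕ, 0 < m ∧ Bpf (m • D)

attribute [instance] PVar.grp

namespace PVar

variable {k : Type} [Field k] {n : ℕ} (X : PVar k n)

/-- nef line bundles -/
def Nef (D : X.Pic) : Prop := ∀ C, 0 ≤ X.deg C D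

/-- semiample line bundles -/
def Semiample (D : X.Pic) : Prop := ∃ m : ℕ, 0 < m ∧ X.Bpf (m • D)

/-- For a set `s` of `i` indices this is the number `L ^ i · A ^ (n - i)`. -/
def mon (L A : X.Pic) (s : Finset (Fin n)) : ℤ :=
  X.inter (s.piecewise (fun _ => L) (fun _ => A))

/-- The numerical dimension of a nef line bundle `L`: the largest `i` with
`L ^ i · A ^ (n - i) > 0`; here `A` is ample (the number does not depend on `A`). -/
noncomputable def numDim (L A : X.Pic) : ℕ :=
  (univ.filter (fun s : Finset (Fin n) => 0 < X.mon L A s)).sup Finset.card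

end PVar

/-- The data of a fibration `q : X ⇢ T` (a rational map whose general fibres are closed in `X`)
onto a variety of dimension `t`, with the family `q' : U → T'` of its fibres: `T'` is the
normalisation, in the function field of `T`, of the closure of the image of `T` in the Chow variety
of `X`; `U → T'` is the family of cycles, `μ : U → X` the projection, a birational morphism which
is an isomorphism over an open subset `q'⁻¹ (T0)`. `A_T` is a very ample line bundle on `T'` and
`P = μ_* q'^* A_T` in `Pic X`. Curves, morphisms and points are taken over an uncountable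
algebraically closed extension field of `k` (the same one for all structures). -/
structure FibData {k : Type} [Field k] {n : ℕ} (X : PVar k n) where
  /-- the dimension of `T` -/
  t : ℕ
  /-- the class of `μ_* q'^* A_T` -/
  P : X.Pic
  /-- closed points of `T'` -/
  T : Type
  /-- the open subset `T0` of `T'` -/
  T0 : Set T
  /-- subsets of `T0` which contain the complement of a countable union of proper closed subsets -/
  Large : Set T → Prop
  /-- curves in `X` which are images of curves in fibres of `q'` -/
  Vert : Set X.Curve
  /-- pairs `(C, h)` of a smooth projective curve `C` and a nonconstant morphism `h : C → T'`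
  whose image meets `T0` -/
  Base : Type
  /-- the genus of `C` -/
  genus : Base → ℕ
  /-- the degree of `h^* A_T` -/
  tdeg : Base → ℤ
  /-- morphisms `f : C → U` with `q' ∘ f = h` -/
  Lift : Base → Type
  /-- the degree of `(μ ∘ f)^* D` on `C` -/
  degL : ∀ {b : Base}, Lift b → X.Pic →+ ℤ
  /-- closed points of `C` -/
  Pt : Base → Type
  /-- the map `h` on points -/
  im : ∀ {b : Base}, Pt b → T
  /-- composition of `h` with the `m`-th power of the (`k`-linear) Frobenius `C_m → C` -/
  frob : Base → ℕ → Base
  /-- composition of a lift with the Frobenius -/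
  liftFrob : ∀ {b : Base}, Lift b → ∀ m : ℕ, Lift (frob b m)
  /-- all morphisms `r : ℙ¹ → U`, the constant ones included -/
  RMap : Type
  /-- the degree of `(μ ∘ r)^* D` -/
  degR : RMap → X.Pic →+ ℤ
  /-- the degree of `(q' ∘ r)^* A_T` -/
  tdegR : RMap → ℤ
  /-- `meets r τ`: the image of `r` meets the fibre of `q'` over `τ` -/
  meets : RMap → T → Prop

/-- A one parameter family `F : C × S → X` of morphisms with `F (x, s) = f (x)` for all `x` in `B`
and all `s`, and a smooth projective surface `Y` obtained from `C × S'` (`S'` the smooth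
compactification of `S`) by blowing up points, such that `F` becomes a morphism `Ψ : Y → U`. -/
structure Family {k : Type} [Field k] {n : ℕ} {X : PVar k n} (F : FibData X) {b : F.Base}
    (f : F.Lift b) (B : Finset (F.Pt b)) where
  /-- the blown up points (infinitely near points allowed) -/
  ι : Type
  [ftι : Fintype ι]
  /-- the irreducible components of the exceptional curves -/
  κ : Type
  [ftκ : Fintype κ]
  /-- `mult i c` is the multiplicity of `c` in the total transform `E_i` of the `i`-th point -/
  mult : ι → κ → ℕ
  /-- every component is a rational curve; the restriction of `Ψ` to it -/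
  r : κ → F.RMap
  /-- the points on the strict transforms of `{x} × S'` -/
  side : F.Pt b → Finset ι
  side_disj : ∀ x ∈ B, ∀ y ∈ B, x ≠ y → Disjoint (side x) (side y)
  /-- the degree of `Ψ^* μ^* D` on `{c} × S'`, `c` general -/
  α : X.Pic →+ ℤ
  /-- the degree of `Ψ^* q'^* A_T` on `{c} × S'`, `c` general -/
  αT : ℤ
  α_nonneg : ∀ D, X.Nef D → 0 ≤ α D
  αT_nonneg : 0 ≤ αT
  /-- `Ψ` contracts the strict transform of `{x} × S'` if `x ∈ B`: its class is
  `[{c} × S'] - ∑ E_i` over the `i` in `side x` -/
  contr : ∀ x ∈ B, ∀ D, α D = ∑ i ∈ side x, ∑ c, (mult i c : ℤ) * F.degR (r c) D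
  contrT : ∀ x ∈ B, αT = ∑ i ∈ side x, ∑ c, (mult i c : ℤ) * F.tdegR (r c)
  /-- For the nef class `M = u D + v A_T` on `Y`, with `e_i = M · E_i`: `M ^ 2 ≥ 0`, and the Hodge
  index theorem on `C × S'` gives `M ^ 2 ≤ 2 (M · {c} × S') (M · C × {s}) - ∑ e_i ^ 2`; here `c` and
  `s` are general, and the degree of `A_T` on `C × {s}` is at most the degree of `P`, because
  `μ^* P - q'^* A_T` is effective and `μ`-exceptional; the degree of `P` does not depend on `s`. -/
  hodge : ∀ D, X.Nef D → ∀ u v : ℝ, 0 ≤ u → 0 ≤ v →
    ∑ i, (∑ c, (mult i c : ℝ) * (u * F.degR (r c) D + v * F.tdegR (r c))) ^ 2 ≤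
      2 * (u * α D + v * αT) * (u * F.degL f D + v * F.degL f F.P)
  /-- `E_i` meets the strict transform of `{x} × S'`, which goes to a point over `h (x)`, if
  `i ∈ side x` -/
  touch : ∀ x ∈ B, ∀ i ∈ side x, ∃ c, 0 < mult i c ∧ F.meets (r c) (F.im x)
  /-- `E_i` is connected -/
  conn : ∀ i c c', 0 < mult i c → 0 < mult i c' →
    Relation.ReflTransGen
      (fun d d' => 0 < mult i d' ∧ ∃ τ, F.meets (r d) τ ∧ F.meets (r d') τ) c c'
  /-- Bend and break (rigidity lemma, [Ko, II.5.4], [KM, 1.6]): if all maps of the family have the
  same composition with `q'`, then the family degenerates (`B` is nonempty) to a lift `f''` and a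
  nonzero cycle of curves which are contracted by `q'`. -/
  vertical : B.Nonempty → αT = 0 → ∃ (f'' : F.Lift b) (Z : Multiset X.Curve), Z ≠ 0 ∧
    (∀ C ∈ Z, C ∈ F.Vert) ∧ ∀ D, F.degL f D = F.degL f'' D + (Z.map fun C => X.deg C D).sum

attribute [instance] Family.ftι Family.ftκ

/-- Published facts about a fibration of a smooth projective variety `X` of dimension `n` in
characteristic `p`; `K` is the canonical class. -/
structure Fibration {k : Type} [Field k] {n : ℕ} (X : PVar k n) (K : X.Pic) (p : ℕ) extends
    FibData X where
  t_le : t ≤ n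
  /-- `P` is the class of an effective divisor -/
  P_nonneg : ∀ (v : Fin n → X.Pic) (j₀ : Fin n), (∀ j, X.Nef (v j)) →
    0 ≤ X.inter (Function.update v j₀ P)
  /-- `W`, the intersection of `n - t` general members of (a multiple of) `A` on `U`, is
  generically finite over `T'`, so that `A_T` is big on `W` and `M A_T - A` is effective on `W`
  for some `M`; intersect with `t - 1` nef classes -/
  P_big : ∀ A, X.Ample A → ∃ M : ℕ, ∀ (v : Fin n → X.Pic) (j₀ : Fin n) (s : Finset (Fin n)),
    (∀ j, X.Nef (v j)) → (∀ j ∈ s, j ≠ j₀ ∧ v j = A) → n - t ≤ s.card →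
    X.inter (Function.update v j₀ A) ≤ M * X.inter (Function.update v j₀ P)
  /-- if `L` is nef and numerically trivial on the fibres of `q'`, then `L ^ (t + 1) = 0`
  numerically -/
  pow_zero : ∀ L, X.Nef L → (∀ C ∈ Vert, X.deg C L = 0) →
    ∀ (v : Fin n → X.Pic) (s : Finset (Fin n)), (∀ j ∈ s, v j = L) → t < s.card → X.inter v = 0
  tdeg_pos : ∀ b, 0 < tdeg b
  degL_nonneg : ∀ {b} (f : Lift b) D, X.Nef D → 0 ≤ degL f D
  /-- `μ^* P - q'^* A_T` is effective and `μ`-exceptional (negativity lemma, [KM, 3.39]) -/
  tdeg_le : ∀ {b} (f : Lift b), tdeg b ≤ degL f P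
  genus_frob : ∀ b m, genus (frob b m) = genus b
  tdeg_frob : ∀ b m, tdeg (frob b m) = p ^ m * tdeg b
  degL_liftFrob : ∀ {b} (f : Lift b) m D, degL (liftFrob f m) D = p ^ m * degL f D
  degR_nonneg : ∀ r D, X.Nef D → 0 ≤ degR r D
  tdegR_nonneg : ∀ r, 0 ≤ tdegR r
  /-- if `q' ∘ r` is constant, the image of `r` meets only one fibre -/
  meets_unique : ∀ r, tdegR r = 0 → ∀ τ τ', meets r τ → meets r τ' → τ = τ'
  /-- A general complete intersection curve of `n - 1` members of `|m H|` (`H` ample, `m` large,
  `e = m ^ (n - 1)`) avoids the closed subset of codimension at least two over which `μ` is not an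
  isomorphism, and all but countably many of its points lie over a given large subset of `T0`. -/
  exists_ci : 1 ≤ t → ∀ H, X.Ample H → ∀ (j₀ : Fin n) (G : Set T), Large G →
    ∃ (b : Base) (f : Lift b) (e : ℕ), 0 < e ∧
      (∀ D, degL f D = e * X.inter (Function.update (fun _ => H) j₀ D)) ∧
      tdeg b = degL f P ∧
      ∀ m N : ℕ, ∃ B : Finset (Pt (frob b m)), B.card = N ∧ ∀ x ∈ B, im x ∈ G
  large_sub : ∀ G, Large G → G ⊆ T0
  /-- Mori: `dim Hom (C, X; f | B) ≥ - K · f + n (1 - g) - n |B|` at `f`, [Ko, II.1.2, II.1.3]; and
  rational maps from smooth surfaces are resolved by blowing up points -/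
  exists_family : ∀ {b} (f : Lift b) (B : Finset (Pt b)), (∀ x ∈ B, im x ∈ T0) →
    1 ≤ - degL f K + n * (1 - genus b) - n * B.card → Nonempty (Family toFibData f B)

/-- `q` is the quotient of `X` by the rational curves `C` with `L · C = 0`. -/
structure IsQuotient {k : Type} [Field k] {n : ℕ} {X : PVar k n} {K : X.Pic} {p : ℕ}
    (F : Fibration X K p) (L : X.Pic) : Prop where
  /-- the fibres are chain connected by such curves and `U → T'` is a family of cycles, so `L` is
  numerically trivial on all fibres of `q'`, [Ko, IV.3.13.3] -/
  triv : ∀ C ∈ F.Vert, X.deg C L = 0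
  /-- very general fibres are closed in `X` and contain every rational curve `C` with `L · C = 0`
  which they meet -/
  closed : ∃ G, F.Large G ∧ ∀ τ ∈ G, ∀ r, F.meets r τ → F.degR r L = 0 → F.tdegR r = 0

/-- Prime divisors on a smooth projective variety, and movable line bundles (a positive multiple
has no fixed divisor). -/
structure Divisors {k : Type} [Field k] {n : ℕ} (X : PVar k n) where
  /-- the class of a prime divisor -/
  cls : X.Div → X.Pic
  cls_pos : ∀ W A (j : Fin n), X.Ample A → 0 < X.inter (Function.update (fun _ => A) j (cls W))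
  cls_nonneg : ∀ W (v : Fin n → X.Pic) (j : Fin n), (∀ l, X.Nef (v l)) →
    0 ≤ X.inter (Function.update v j (cls W))
  Mov : X.Pic → Prop
  mov_of_bpf : ∀ D, X.Semiample D → Mov D
  /-- a positive multiple of a movable line bundle is effective -/
  mov_eff : ∀ D, Mov D → ∃ m : ℕ, 0 < m ∧ m • D ∈ AddSubmonoid.closure (Set.range cls)
  /-- Kodaira's lemma, [La, 2.2.7] -/
  kodaira : ∀ L, X.Nef L → 0 < X.inter (fun _ => L) →
    ∃ (m : ℕ) (E : X.Pic), 0 < m ∧ E ∈ AddSubmonoid.closure (Set.range cls) ∧ X.Ample (m • L - E)

/-- Let `S = T'' → T'` be finite, `U'' → T''` the normalised pullback of the family `U → T'`, `Z`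
an integral closed subvariety of dimension `t - 1` of `T''`, and suppose that no component of the
preimage of `Z` in `U''` is mapped onto a divisor of `X`. This structure collects the irreducible
families of cycles over a smooth projective variety `V` (of dimension `t - 1 ≤ 2`), generically
finite over `Z`, such that the cycle in `X` over a point `s` of `V` is a combination of the
irreducible cycles `cyc j s`. Everything is considered over an uncountable algebraically closed
extension field `k'` of `k`. -/
structure CycFam {k : Type} [Field k] {t : ℕ} (S : PVar k t) (N : S.Pic) (Z : S.Div) where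
  k' : Type
  [fld : Field k']
  V : PVar k' (t - 1)
  /-- pullback of line bundles -/
  pb : S.Pic →+ V.Pic
  nef : V.Nef (pb N)
  /-- the degree of `V → Z` -/
  δ : ℤ
  δ_pos : 0 < δ
  proj : ∀ v : Fin (t - 1) → S.Pic, V.inter (fun i => pb (v i)) = δ * S.interD Z v
  /-- closed points of `V` -/
  Pt : Type
  /-- the points of a curve -/
  on : V.Curve → Set Pt
  /-- closed points of `X` -/
  XPt : Type
  J : Type
  [neJ : Nonempty J]
  cyc : J → Pt → Set XPt
  cyc_ne : ∀ j s, (cyc j s).Nonempty
  /-- a very general point of `V` -/
  s₀ : Pt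
  /-- For `w` in `cyc j s₀` the `s` with `w` in `cyc j s` form a closed subset of positive dimension
  at `s₀`: the family over `V` has dimension `n - 1` and its image in `X` has dimension
  at most `n - 2`. -/
  fibre : ∀ j, ∀ w ∈ cyc j s₀, ∃ R : V.Curve, s₀ ∈ on R ∧ ∀ s ∈ on R, w ∈ cyc j s
  /-- `V → Z → T' → Chow` is generically finite and `s₀` is very general, so the cycles do not stay
  constant along a curve `R` through `s₀`: for general `s` on `R` the irreducible cycles `cyc j s`
  and `cyc j s₀` of the same dimension are different for some `j` -/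
  finite : ∀ R, s₀ ∈ on R → ∃ s ∈ on R, ∃ j, ∃ w ∈ cyc j s₀, w ∉ cyc j s
  /-- if `w` lies in all cycles over `R`, then `R` lifts to a curve in `U''` which is contracted
  in `X`, and the pullbacks of `L` and `N` to `U''` are proportional up to torsion -/
  common : ∀ R j w, (∀ s ∈ on R, w ∈ cyc j s) → V.deg R (pb N) = 0
  /-- if `t - 1 = 1`, then `V` is the only curve in `V` -/
  curve : t = 2 → ∀ R R', on R = on R'
  /-- the class of a curve, if `t - 1 = 2` -/
  clsR : V.Curve → V.Pic
  clsR_spec : t = 3 → ∀ R D (i : Fin (t - 1)), V.inter (Function.update (fun _ => D) i (clsR R)) =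
    V.deg R D
  /-- a curve through the very general point moves in a family which covers the surface `V` -/
  clsR_nef : t = 3 → ∀ R, s₀ ∈ on R → V.Nef (clsR R)
  /-- two different curves which meet have positive intersection number -/
  clsR_pos : t = 3 → ∀ R R', s₀ ∈ on R → s₀ ∈ on R' → on R ≠ on R' → 0 < V.deg R (clsR R')

attribute [instance] CycFam.neJ CycFam.fld

/-- The line bundle `L` comes from the base of the quotient. `L` is torsion on the generic fibre:
after a purely inseparable base change the normalised generic fibre is geometrically normal and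
rationally chain connected, so that its `Pic⁰` is trivial. There are a finite morphism `T'' → T'`
from a normal variety `S = T''` (the normalisation of a multisection), the normalised pullback
`U'' → T''` of the family, which is equidimensional, and a nef line bundle `N` on `T''` such that
the pullbacks of `L` and of `N` to `U''` are proportional up to torsion (Zariski's lemma in
codimension one; Kawamata; in characteristic `p` see [CTX]). -/
structure Descent {k : Type} [Field k] {n : ℕ} {X : PVar k n} (Δ : Divisors X) {K : X.Pic} {p : ℕ}
    (F : Fibration X K p) (L : X.Pic) where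
  S : PVar k F.t
  N : S.Pic
  nef : S.Nef N
  /-- `N ^ t > 0` if `L ^ t · A ^ (n - t) > 0` -/
  pos : ∀ A, X.Ample A → ∀ s : Finset (Fin n), s.card = F.t → 0 < X.mon L A s →
    0 < S.inter (fun _ => N)
  /-- `κ (N) ≤ κ (L)`: sections of pullbacks under finite morphisms are integral over sections -/
  grows : Grows (fun m => S.h0 (m • N)) F.t → Grows (fun m => X.h0 (m • L)) F.t
  /-- semiampleness descends under surjective morphisms onto normal varieties, [Ke, 2.10] -/
  semi : S.Semiample N → X.Semiample L
  /-- the prime divisors of `X` which are images of components of the preimage of `Z` in `U''` -/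
  above : S.Div → Set X.Div
  /-- if `N ^ (t - 1) · Z = 0`, then `L ^ (t - 1) = 0` numerically on the divisors over `Z` -/
  above_zero : 1 ≤ F.t → ∀ Z, ∀ W ∈ above Z, S.interD Z (fun _ => N) = 0 →
    ∀ (v : Fin n → X.Pic) (j₀ : Fin n) (s : Finset (Fin n)), j₀ ∉ s → (∀ j ∈ s, v j = L) →
      s.card = F.t - 1 → X.inter (Function.update v j₀ (Δ.cls W)) = 0
  fam : 2 ≤ F.t → F.t ≤ 3 → ∀ Z, above Z = ∅ → Nonempty (CycFam S N Z)

/-- A smooth projective variety of dimension `n` over an algebraically closed field `k` of
characteristic `p`, with its canonical class `K`. -/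
structure SmoothVar (k : Type) [Field k] (n p : ℕ) extends PVar k n where
  K : Pic
  Δ : Divisors toPVar
  /-- Existence of the quotient: Campana; Kollár, Miyaoka, Mori; [Ko, IV.4.16, IV.4.17] -/
  exists_quotient : ∀ L, toPVar.Nef L →
    ∃ F : Fibration toPVar K p, IsQuotient F L ∧ Nonempty (Descent Δ F L)

/-- A Fano variety: a smooth projective variety with `-K` ample. -/
structure FanoVar (k : Type) [Field k] (n p : ℕ) extends SmoothVar k n p where
  fano : Ample (-K)
  /-- Mori's cone theorem, [Ko, III.1.2]: the cone of curves is spanned by finitely many curves -/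
  rays : Finset Curve
  cone : ∀ D, (∀ C ∈ rays, 0 ≤ deg C D) → toPVar.Nef D
  /-- `Pic X` is finitely generated (Néron-Severi, and `Pic⁰ = 0` since `X` is rationally chain
  connected) -/
  pic_fg : Module.Finite ℤ Pic
  /-- numerically trivial line bundles are torsion -/
  pic_num : ∀ D, (∀ C, deg C D = 0) → ∃ m : ℕ, 0 < m ∧ m • D = 0

/-- Mori dream spaces, in the form needed here: `Pic X` is finitely generated and, up to torsion,
equal to `N¹ (X)`; the nef cone is generated by finitely many semiample line bundles; and the
movable line bundles are exactly the nef ones, so that condition 3 of the definition holds with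
`X` itself as the only small `ℚ`-factorial modification. -/
def FanoVar.MoriDream {k : Type} [Field k] {n p : ℕ} (X : FanoVar k n p) : Prop :=
  (Module.Finite ℤ X.Pic ∧ ∀ D : X.Pic, (∀ C, X.deg C D = 0) → ∃ m : ℕ, 0 < m ∧ m • D = 0) ∧
  (∃ (s : ℕ) (G : Fin s → X.Pic), (∀ i, X.Nef (G i) ∧ X.Semiample (G i)) ∧
    ∀ D, X.Nef D → ∃ a : Fin s → ℕ, D = ∑ i, a i • G i) ∧
  (∀ D, X.Δ.Mov D ↔ X.Nef D)

end Pool.NA
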