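import Pool.Agent.Work.MP_d0224f_na.Hodge
import Pool.Agent.Work.MP_d0224f_ag.Algebra

/-!
# Semiample line bundles and Mori dream spaces
-/

set_option autoImplicit false

namespace Pool.NA

open Finset

section

variable {k : Type} [Field k] {n p : ℕ}

theorem semiample_of_ample (X : PVar k n) {A : X.Pic} (hA : X.Ample A) : X.Semiample A :=
  X.bpf_of_ample A hA

/-- Nef line bundles of numerical dimension at most one are semiample, and those of numerical
dimension two are semiample over an algebraic closure of a finite field. -/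
theorem semiample_small (hp : 2 ≤ p) (X : SmoothVar k n p) (L A : X.Pic) (hL : X.Nef L)
    (hA : X.Ample A) (a b : ℕ) (hb : 0 < b) (hH : X.Ample (a • L - b • X.K))
    (hν : X.numDim L A ≤ 1 ∨ (OverFp k ∧ X.numDim L A ≤ 2)) : X.Semiample L := by
  obtain ⟨F, hq, ht, ⟨D⟩⟩ := quotient_dim hp X L A hL hA a b hb hH
  have hN := D.N_pos hA ht
  refine D.semi ?_
  by_cases h1 : F.t ≤ 1
  · exact semiample_of_ample D.S (D.S.ample_of_dim_le_one h1 _ hN)
  · rcases hν with h | ⟨hk, h⟩
    · omega
    · exact D.S.artin hk (by omega) _ D.nef hN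

/-- Suppose that for every prime divisor `W` of `X` the class `W + m L` is nef for large `m`. If
`L` has numerical dimension at most two, or at most three over an algebraic closure of a
finite field, then `L` is semiample. -/
theorem semiample_of_nef_divisors (hp : 2 ≤ p) (X : SmoothVar k n p) (L A : X.Pic)
    (hL : X.Nef L) (hA : X.Ample A) (a b : ℕ) (hb : 0 < b) (hH : X.Ample (a • L - b • X.K))
    (hdiv : ∀ W, ∃ m : ℕ, X.Nef (X.Δ.cls W + m • L))
    (hν : X.numDim L A ≤ 2 ∨ (OverFp k ∧ X.numDim L A ≤ 3)) : X.Semiample L := by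
  by_cases hsmall : X.numDim L A ≤ 1
  · exact semiample_small hp X L A hL hA a b hb hH (Or.inl hsmall)
  obtain ⟨F, hq, ht, ⟨D⟩⟩ := quotient_dim hp X L A hL hA a b hb hH
  have hN := D.N_pos hA ht
  refine D.semi ?_
  -- a divisor of `X` over `Z` is impossible if `N ^ (t - 1) · Z = 0`
  have hZ : ∀ Z, D.S.interD Z (fun _ => D.N) = 0 → D.above Z = ∅ := by
    intro Z h0
    by_contra hne
    obtain ⟨W, hW⟩ := Set.nonempty_iff_ne_empty.2 hne
    obtain ⟨m, hm⟩ := hdiv W
    refine X.toPVar.no_divisor X.Δ hL hA (by omega) W m hm fun v j₀ s hj hs hc => ?_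
    exact D.above_zero (by omega) Z W hW h0 v j₀ s hj hs (by omega)
  by_cases h2 : F.t = 2
  · refine semiample_of_ample D.S (D.S.nakai h2 _ D.nef hN fun Z h0 => ?_)
    obtain ⟨C⟩ := D.fam (by omega) (by omega) Z (hZ Z h0)
    exact C.false_of_two h2
  · rcases hν with h | ⟨hk, h⟩
    · omega
    · have h3 : F.t = 3 := by omega
      refine D.S.keel hk h3 _ D.nef hN fun Z h0 => ?_
      obtain ⟨C⟩ := D.fam (by omega) (by omega) Z (hZ Z h0)
      exact C.trivial_of_three h3

/-- On a Fano variety it is enough that no prime divisor is negative on an extremal ray on which `L`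
is zero (these rays are of fibre type). -/
theorem semiample_of_fibre_type (hp : 2 ≤ p) (X : FanoVar k n p) (L A : X.Pic)
    (hL : X.Nef L) (hA : X.Ample A)
    (hray : ∀ C ∈ X.rays, X.deg C L = 0 → ∀ W, 0 ≤ X.deg C (X.Δ.cls W))
    (hν : X.numDim L A ≤ 2 ∨ (OverFp k ∧ X.numDim L A ≤ 3)) : X.Semiample L := by
  refine semiample_of_nef_divisors hp X.toSmoothVar L A hL hA 1 1 one_pos ?_ (fun W => ?_) hν
  · rw [one_smul, one_smul, sub_eq_add_neg, add_comm]
    exact X.ample_add_nef _ _ X.fano hL
  · refine ⟨∑ C ∈ X.rays, (X.deg C (X.Δ.cls W)).natAbs, X.cone _ fun C hC => ?_⟩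
    rw [map_add, map_nsmul, nsmul_eq_mul]
    rcases (hL C).eq_or_lt with h | h
    · rw [← h, mul_zero, add_zero]
      exact hray C hC h.symm W
    · have h1 : (X.deg C (X.Δ.cls W)).natAbs ≤
          ∑ C ∈ X.rays, (X.deg C (X.Δ.cls W)).natAbs :=
        single_le_sum (f := fun C => (X.deg C (X.Δ.cls W)).natAbs)
          (fun _ _ => Nat.zero_le _) hC
      have h2 : (((X.deg C (X.Δ.cls W)).natAbs : ℕ) : ℤ) ≤
          ((∑ C ∈ X.rays, (X.deg C (X.Δ.cls W)).natAbs : ℕ) : ℤ) := by exact_mod_cast h1
      have h3 : - X.deg C (X.Δ.cls W) ≤ ((X.deg C (X.Δ.cls W)).natAbs : ℤ) := by omega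
      have h4 : (0:ℤ) ≤ ((∑ C ∈ X.rays, (X.deg C (X.Δ.cls W)).natAbs : ℕ) : ℤ) :=
        Int.natCast_nonneg _
      nlinarith

/-- **Mori dream spaces.** Let `X` be a Fano variety all of whose prime divisors are nef, and
suppose that every nef line bundle which is not ample has numerical dimension at most two, or at
most three if `k` is an algebraic closure of a finite field. Then `X` is a Mori dream space. -/
theorem moriDream (hp : 2 ≤ p) (X : FanoVar k n p) (A : X.Pic) (hA : X.Ample A)
    (hdiv : ∀ W, X.Nef (X.Δ.cls W))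
    (hν : ∀ L, X.Nef L → ¬ X.Ample L →
      X.numDim L A ≤ 2 ∨ (OverFp k ∧ X.numDim L A ≤ 3)) : X.MoriDream := by
  have hsemi : ∀ L, X.Nef L → X.Semiample L := by
    intro L hL
    by_cases hLA : X.Ample L
    · exact semiample_of_ample X.toPVar hLA
    · refine semiample_of_nef_divisors hp X.toSmoothVar L A hL hA 1 1 one_pos ?_
        (fun W => ⟨0, by rw [zero_smul, add_zero]; exact hdiv W⟩) (hν L hL hLA)
      rw [one_smul, one_smul, sub_eq_add_neg, add_comm]
      exact X.ample_add_nef _ _ X.fano hL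
  have hcl : ∀ E ∈ AddSubmonoid.closure (Set.range X.Δ.cls), X.Nef E := by
    intro E hE
    induction hE using AddSubmonoid.closure_induction with
    | mem x hx =>
      obtain ⟨W, rfl⟩ := hx
      exact hdiv W
    | zero => exact fun C => by rw [map_zero]
    | add x y _ _ hx hy => exact X.toPVar.nef_add hx hy
  refine ⟨⟨X.pic_fg, X.pic_num⟩, ?_, fun D => ⟨fun h => ?_, fun h => ?_⟩⟩
  · haveI := X.pic_fg
    obtain ⟨s, w, hw, hgen⟩ := Pool.TF.gordan (W := X.Pic) (E := X.rays)
      (fun C => (Int.castAddHom ℚ).comp (X.deg C.1))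
    have hwn : ∀ i, X.Nef (w i) := by
      intro i
      refine X.cone _ fun C hC => ?_
      have := hw ⟨C, hC⟩ i
      simpa using this
    refine ⟨s, w, fun i => ⟨hwn i, hsemi _ (hwn i)⟩, fun D hD => hgen D fun C => ?_⟩
    have := hD C.1
    simpa using this
  · obtain ⟨m, hm, hmem⟩ := X.Δ.mov_eff D h
    have h1 := hcl _ hmem
    intro C
    have h2 := h1 C
    rw [map_nsmul, nsmul_eq_mul] at h2
    by_contra hcon
    push Not at hcon
    have : (m : ℤ) * X.deg C D < 0 :=
      mul_neg_of_pos_of_neg (by exact_mod_cast hm) hcon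
    omega
  · exact X.Δ.mov_of_bpf D (hsemi D h)

/-- On a Fano variety all of whose prime divisors are nef, nef line bundles which are not ample
have numerical dimension less than `n`. -/
theorem numDim_lt (X : FanoVar k n p) (A : X.Pic)
    (hdiv : ∀ W, X.Nef (X.Δ.cls W)) (L : X.Pic) (hL : X.Nef L) (hLA : ¬ X.Ample L)
    (hn : 0 < n) : X.numDim L A < n := by
  by_contra hcon
  push Not at hcon
  have hcl : ∀ E ∈ AddSubmonoid.closure (Set.range X.Δ.cls), X.Nef E := by
    intro E hE
    induction hE using AddSubmonoid.closure_induction with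
    | mem x hx =>
      obtain ⟨W, rfl⟩ := hx
      exact hdiv W
    | zero => exact fun C => by rw [map_zero]
    | add x y _ _ hx hy => exact X.toPVar.nef_add hx hy
  have hbig : 0 < X.inter (fun _ => L) := by
    by_contra h0
    have hcard : ∀ s ∈ univ.filter (fun s : Finset (Fin n) => 0 < X.mon L A s),
        s.card ≤ n - 1 := by
      intro s hs
      have hpos := (mem_filter.1 hs).2
      by_contra hc
      have h1 : s = univ := by
        rw [← Finset.card_eq_iff_eq_univ, Fintype.card_fin]
        have : s.card ≤ n := by simpa using card_le_univ s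
        omega
      rw [h1] at hpos
      unfold PVar.mon at hpos
      rw [piecewise_univ] at hpos
      exact h0 hpos
    have : X.numDim L A ≤ n - 1 := Finset.sup_le hcard
    omega
  obtain ⟨m, E, hm, hE, hample⟩ := X.Δ.kodaira L hL hbig
  have h1 : X.Ample (m • L) := by
    have := X.ample_add_nef _ _ hample (hcl E hE)
    rwa [sub_add_cancel] at this
  exact hLA ((X.ample_smul L m hm).1 h1)

/-- **Fano fourfolds over an algebraic closure of a finite field on which all prime divisors are
nef are Mori dream spaces.** -/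
theorem fourfolds (hp : 2 ≤ p) (X : FanoVar k 4 p) (hk : OverFp k)
    (hdiv : ∀ W, X.Nef (X.Δ.cls W)) : X.MoriDream := by
  have hA : X.Ample (-X.K) := X.fano
  refine moriDream hp X (-X.K) hA hdiv fun L hL hLA => Or.inr ⟨hk, ?_⟩
  have := numDim_lt X (-X.K) hdiv L hL hLA (by norm_num)
  omega

end

end Pool.NA
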