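import Pool.Agent.Work.MP_d0224f_na.Defs

/-!
# Growth of intersection numbers with `N L + A`
-/

set_option autoImplicit false

namespace Pool.NA

open Finset

namespace PVar

variable {k : Type} [Field k] {n : ℕ} (X : PVar k n)

theorem nef_of_ample {A : X.Pic} (h : X.Ample A) : X.Nef A := fun C => (X.deg_ample A h C).le

theorem nef_add {D E : X.Pic} (h : X.Nef D) (h' : X.Nef E) : X.Nef (D + E) := fun C => by
  rw [map_add]
  exact add_nonneg (h C) (h' C)

theorem nef_smul {D : X.Pic} (m : ℕ) (h : X.Nef D) : X.Nef (m • D) := fun C => by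
  rw [map_nsmul]
  exact nsmul_nonneg (h C) m

theorem nef_piecewise {L A : X.Pic} (hL : X.Nef L) (hA : X.Nef A) (s : Finset (Fin n)) :
    ∀ j, X.Nef (s.piecewise (fun _ => L) (fun _ => A) j) := by
  intro j
  by_cases h : j ∈ s
  · rw [piecewise_eq_of_mem _ _ _ h]
    exact hL
  · rw [piecewise_eq_of_notMem _ _ _ h]
    exact hA

theorem mon_nonneg {L A : X.Pic} (hL : X.Nef L) (hA : X.Nef A) (s : Finset (Fin n)) :
    0 ≤ X.mon L A s := X.inter_nonneg _ (fun j => nef_piecewise X hL hA s j)

theorem numDim_le {L A : X.Pic} (s : Finset (Fin n)) (h : 0 < X.mon L A s) :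
    s.card ≤ X.numDim L A := by
  unfold numDim
  exact Finset.le_sup (f := Finset.card) (mem_filter.2 ⟨mem_univ _, h⟩)

theorem mon_eq_zero {L A : X.Pic} (hL : X.Nef L) (hA : X.Nef A) (s : Finset (Fin n))
    (h : X.numDim L A < s.card) : X.mon L A s = 0 := by
  by_contra h0
  have h1 : 0 < X.mon L A s := lt_of_le_of_ne (mon_nonneg X hL hA s) (Ne.symm h0)
  have := numDim_le X s h1
  omega

theorem exists_numDim {L A : X.Pic} (hA : X.Ample A) :
    ∃ s : Finset (Fin n), s.card = X.numDim L A ∧ 0 < X.mon L A s := by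
  have hne : (univ.filter (fun s : Finset (Fin n) => 0 < X.mon L A s)).Nonempty := by
    refine ⟨∅, mem_filter.2 ⟨mem_univ _, ?_⟩⟩
    unfold mon
    rw [piecewise_empty]
    exact X.inter_ample A hA
  obtain ⟨s, hs, h⟩ := Finset.exists_mem_eq_sup _ hne Finset.card
  exact ⟨s, h.symm, (mem_filter.1 hs).2⟩

/-- the number with `D` in position `j₀`, `L` in the positions of `s`, and `A` elsewhere -/
def mix (L A D : X.Pic) (j₀ : Fin n) (s : Finset (Fin n)) : ℤ :=
  X.inter (s.piecewise (fun _ => L) (Function.update (fun _ => A) j₀ D))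

theorem expand (L A D : X.Pic) (j₀ : Fin n) (N : ℕ) :
    X.inter (Function.update (fun _ => A + N • L) j₀ D) =
      ∑ s ∈ (univ.erase j₀).powerset, (N : ℤ) ^ s.card * X.mix L A D j₀ s := by
  have h1 : Function.update (fun _ : Fin n => A + N • L) j₀ D =
      (univ.erase j₀).piecewise ((fun _ : Fin n => (N : ℤ) • L) +
        Function.update (fun _ => A) j₀ D) (Function.update (fun _ => A) j₀ D) := by
    funext j
    by_cases h : j = j₀
    · subst h
      rw [piecewise_eq_of_notMem _ _ _ (notMem_erase j univ)]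
      simp
    · rw [piecewise_eq_of_mem _ _ _ (mem_erase.2 ⟨h, mem_univ _⟩)]
      simp [Function.update_of_ne h, add_comm]
  rw [h1, MultilinearMap.map_piecewise_add]
  refine sum_congr rfl fun s hs => ?_
  have h2 : s.piecewise (fun _ : Fin n => (N : ℤ) • L) (Function.update (fun _ => A) j₀ D) =
      s.piecewise (fun i => (fun _ : Fin n => (N : ℤ)) i •
        (s.piecewise (fun _ => L) (Function.update (fun _ => A) j₀ D)) i)
        (s.piecewise (fun _ => L) (Function.update (fun _ => A) j₀ D)) := by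
    funext j
    by_cases h : j ∈ s
    · rw [piecewise_eq_of_mem _ _ _ h, piecewise_eq_of_mem _ _ _ h,
        piecewise_eq_of_mem _ _ _ h]
    · rw [piecewise_eq_of_notMem _ _ _ h, piecewise_eq_of_notMem _ _ _ h,
        piecewise_eq_of_notMem _ _ _ h]
  rw [h2, MultilinearMap.map_piecewise_smul, prod_const, smul_eq_mul]
  rfl

theorem mix_self (L A : X.Pic) (j₀ : Fin n) (s : Finset (Fin n)) (h : j₀ ∉ s) :
    X.mix L A L j₀ s = X.mon L A (insert j₀ s) := by
  unfold mix mon
  congr 1
  funext j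
  by_cases h1 : j ∈ s
  · rw [piecewise_eq_of_mem _ _ _ h1, piecewise_eq_of_mem _ _ _ (mem_insert_of_mem h1)]
  · rw [piecewise_eq_of_notMem _ _ _ h1]
    by_cases h2 : j = j₀
    · subst h2
      rw [piecewise_eq_of_mem _ _ _ (mem_insert_self _ _), Function.update_self]
    · rw [piecewise_eq_of_notMem _ _ _ (by simp [h1, h2]), Function.update_of_ne h2]

theorem mix_eq (L A D : X.Pic) (j₀ : Fin n) (s : Finset (Fin n)) (h : j₀ ∉ s) :
    X.mix L A D j₀ s =
      X.inter (Function.update (s.piecewise (fun _ => L) (fun _ => A)) j₀ D) := by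
  unfold mix
  congr 1
  funext j
  by_cases h1 : j ∈ s
  · have h2 : j ≠ j₀ := fun e => h (e ▸ h1)
    rw [piecewise_eq_of_mem _ _ _ h1, Function.update_of_ne h2, piecewise_eq_of_mem _ _ _ h1]
  · rw [piecewise_eq_of_notMem _ _ _ h1]
    by_cases h2 : j = j₀
    · subst h2
      rw [Function.update_self, Function.update_self]
    · rw [Function.update_of_ne h2, Function.update_of_ne h2, piecewise_eq_of_notMem _ _ _ h1]

end PVar

/-- **Curves of small slope.** If `ν (L) < t`, then for every `δ > 0` there is an ample `H` with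
`0 ≤ L · H ^ (n - 1) ≤ δ P · H ^ (n - 1)` and `P · H ^ (n - 1) > 0`. -/
theorem small_slope {k : Type} [Field k] {n p : ℕ} {X : PVar k n} {K : X.Pic} (F : Fibration X K p) {L A : X.Pic}
    (hL : X.Nef L) (hA : X.Ample A) (ht : X.numDim L A < F.t) (δ : ℝ) (hδ : 0 < δ) :
    ∃ (H : X.Pic) (j₀ : Fin n), X.Ample H ∧
      0 ≤ X.inter (Function.update (fun _ => H) j₀ L) ∧
      0 < X.inter (Function.update (fun _ => H) j₀ F.P) ∧
      (X.inter (Function.update (fun _ => H) j₀ L) : ℝ) ≤
        δ * X.inter (Function.update (fun _ => H) j₀ F.P) := by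
  have hAn := X.nef_of_ample hA
  obtain ⟨s₀, hs₀, hpos⟩ := X.exists_numDim (L := L) hA
  have hcard : s₀.card < n := by
    have := F.t_le
    omega
  obtain ⟨j₀, hj₀⟩ : ∃ j₀, j₀ ∉ s₀ := by
    by_contra hcon
    push Not at hcon
    have : s₀ = univ := eq_univ_of_forall hcon
    rw [this, card_univ, Fintype.card_fin] at hcard
    exact lt_irrefl _ hcard
  -- positivity of the leading coefficient
  have hπ : 1 ≤ X.mix L A F.P j₀ s₀ := by
    obtain ⟨M, hM⟩ := F.P_big A hA
    have h1 := hM (s₀.piecewise (fun _ => L) (fun _ => A)) j₀ ((insert j₀ s₀)ᶜ)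
      (X.nef_piecewise hL hAn s₀) (fun j hj => by
        have hj' : j ∉ insert j₀ s₀ := mem_compl.1 hj
        rw [mem_insert, not_or] at hj'
        exact ⟨hj'.1, piecewise_eq_of_notMem _ _ _ hj'.2⟩) (by
        rw [card_compl, Fintype.card_fin, card_insert_of_notMem hj₀]
        omega)
    rw [← X.mix_eq L A F.P j₀ s₀ hj₀] at h1
    have h2 : Function.update (s₀.piecewise (fun _ => L) (fun _ => A)) j₀ A =
        s₀.piecewise (fun _ => L) (fun _ => A) := by
      funext j
      by_cases h : j = j₀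
      · subst h
        rw [Function.update_self, piecewise_eq_of_notMem _ _ _ hj₀]
      · rw [Function.update_of_ne h]
    rw [h2] at h1
    have h3 : 0 < (M : ℤ) * X.mix L A F.P j₀ s₀ := lt_of_lt_of_le hpos h1
    by_contra hcon
    have h4 : X.mix L A F.P j₀ s₀ ≤ 0 := by omega
    have : (M : ℤ) * X.mix L A F.P j₀ s₀ ≤ 0 :=
      mul_nonpos_of_nonneg_of_nonpos (Int.natCast_nonneg M) h4
    omega
  have hmix0 : ∀ s ∈ (univ.erase j₀).powerset, 0 ≤ X.mix L A F.P j₀ s := by
    intro s hs
    have : j₀ ∉ s := fun h => by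
      have := mem_powerset.1 hs h
      exact (notMem_erase j₀ univ) this
    rw [X.mix_eq L A F.P j₀ s this]
    exact F.P_nonneg _ j₀ (X.nef_piecewise hL hAn s)
  set Kc : ℤ := ∑ s ∈ (univ.erase j₀).powerset, X.mon L A (insert j₀ s) with hKc
  have hKc0 : 0 ≤ Kc := sum_nonneg fun s _ => X.mon_nonneg hL hAn _
  obtain ⟨N, hN⟩ := exists_nat_gt ((Kc : ℝ) / δ)
  have hN1 : 1 ≤ N := by
    by_contra h
    have : N = 0 := by omega
    subst this
    have : (0:ℝ) ≤ (Kc : ℝ) / δ := by positivity
    simp at hN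
    linarith
  refine ⟨A + N • L, j₀, X.ample_add_nef A _ hA (X.nef_smul N hL), ?_, ?_, ?_⟩
  · rw [X.expand]
    refine sum_nonneg fun s hs => mul_nonneg (by positivity) ?_
    have : j₀ ∉ s := fun h => (notMem_erase j₀ univ) (mem_powerset.1 hs h)
    rw [X.mix_self L A j₀ s this]
    exact X.mon_nonneg hL hAn _
  · rw [X.expand]
    refine sum_pos' (fun s hs => mul_nonneg (by positivity) (hmix0 s hs)) ⟨s₀, ?_, ?_⟩
    · rw [mem_powerset]
      intro j hj
      exact mem_erase.2 ⟨fun e => hj₀ (e ▸ hj), mem_univ _⟩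
    · exact mul_pos (by positivity) (by omega)
  · -- N * (L-number) ≤ Kc * N ^ ν, N ^ ν ≤ (P-number)
    set ν := X.numDim L A with hν
    have hup : (N : ℤ) * X.inter (Function.update (fun _ => A + N • L) j₀ L) ≤
        (N : ℤ) ^ ν * Kc := by
      rw [X.expand, hKc, mul_sum, mul_sum]
      refine sum_le_sum fun s hs => ?_
      have hs' : j₀ ∉ s := fun h => (notMem_erase j₀ univ) (mem_powerset.1 hs h)
      rw [X.mix_self L A j₀ s hs']
      by_cases hc : ν < (insert j₀ s).card
      · rw [X.mon_eq_zero hL hAn _ hc]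
        simp
      · rw [card_insert_of_notMem hs'] at hc
        rw [← mul_assoc, ← pow_succ']
        refine mul_le_mul_of_nonneg_right ?_ (X.mon_nonneg hL hAn _)
        exact pow_le_pow_right₀ (by exact_mod_cast hN1) (by omega)
    have hlow : (N : ℤ) ^ ν ≤ X.inter (Function.update (fun _ => A + N • L) j₀ F.P) := by
      rw [X.expand]
      have hmem : s₀ ∈ (univ.erase j₀).powerset := by
        rw [mem_powerset]
        intro j hj
        exact mem_erase.2 ⟨fun e => hj₀ (e ▸ hj), mem_univ _⟩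
      refine le_trans ?_ (single_le_sum (f := fun s => (N : ℤ) ^ s.card *
        X.mix L A F.P j₀ s) (fun s hs => mul_nonneg (by positivity) (hmix0 s hs)) hmem)
      rw [hs₀]
      nlinarith [pow_pos (show (0:ℤ) < N by exact_mod_cast hN1) ν]
    have hupR : (N : ℝ) * X.inter (Function.update (fun _ => A + N • L) j₀ L) ≤
        (N : ℝ) ^ ν * Kc := by exact_mod_cast hup
    have hlowR : (N : ℝ) ^ ν ≤ X.inter (Function.update (fun _ => A + N • L) j₀ F.P) := by
      exact_mod_cast hlow
    have hNpos : (0:ℝ) < N := by exact_mod_cast hN1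
    have hKN : (Kc : ℝ) ≤ δ * N := by
      rw [div_lt_iff₀ hδ] at hN
      linarith
    have hK0 : (0:ℝ) ≤ Kc := by exact_mod_cast hKc0
    have h1 : (N : ℝ) * X.inter (Function.update (fun _ => A + N • L) j₀ L) ≤
        N * (δ * X.inter (Function.update (fun _ => A + N • L) j₀ F.P)) := by
      calc (N : ℝ) * X.inter (Function.update (fun _ => A + N • L) j₀ L)
          ≤ (N : ℝ) ^ ν * Kc := hupR
        _ ≤ (N : ℝ) ^ ν * (δ * N) := mul_le_mul_of_nonneg_left hKN (by positivity)
        _ ≤ X.inter (Function.update (fun _ => A + N • L) j₀ F.P) * (δ * N) :=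
            mul_le_mul_of_nonneg_right hlowR (by positivity)
        _ = N * (δ * X.inter (Function.update (fun _ => A + N • L) j₀ F.P)) := by ring
    exact le_of_mul_le_mul_left h1 hNpos

end Pool.NA
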