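import Pool.Agent.Work.MP_d0224f_na.Main

/-!
# Hodge index arguments
-/

set_option autoImplicit false

namespace Pool.NA

open Finset

/-- In a symmetric bilinear form with at most one positive eigenvalue, a vector `W` with
`(L, W) = 0` and `(W, W) ≥ 0`, where `(L, L) > 0`, lies in the radical. -/
theorem radical {M : Type} [AddCommGroup M] (B : M →+ M →+ ℤ) (hsymm : ∀ x y, B x y = B y x)
    (hodge : ∀ x y, 0 < B y y → B x x * B y y ≤ B x y ^ 2) {L W : M} (hL : 0 < B L L)
    (hLW : B L W = 0) (hW : 0 ≤ B W W) (x : M) : B W x = 0 := by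
  set q := B L L with hq
  set x' : M := q • x - (B L x) • L with hx'
  have hWL : B W L = 0 := by rw [hsymm, hLW]
  have hLx' : B L x' = 0 := by
    rw [hx', map_sub, map_zsmul, map_zsmul, smul_eq_mul, smul_eq_mul, ← hq]
    ring
  have hx'L : B x' L = 0 := by rw [hsymm, hLx']
  have key : ∀ t s : ℤ, t ^ 2 * B W W + 2 * t * s * B W x' + s ^ 2 * B x' x' ≤ 0 := by
    intro t s
    have h1 := hodge (t • W + s • x') L hL
    have h2 : B (t • W + s • x') L = 0 := by
      rw [map_add, AddMonoidHom.add_apply, map_zsmul, map_zsmul, AddMonoidHom.zsmul_apply,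
        AddMonoidHom.zsmul_apply, hWL, hx'L]
      simp
    have h3 : B (t • W + s • x') (t • W + s • x') =
        t ^ 2 * B W W + 2 * t * s * B W x' + s ^ 2 * B x' x' := by
      simp only [map_add, AddMonoidHom.add_apply, map_zsmul, AddMonoidHom.zsmul_apply,
        smul_eq_mul]
      rw [hsymm x' W]
      ring
    rw [h2, h3] at h1
    by_contra hcon
    push Not at hcon
    have := mul_pos hcon hL
    nlinarith
  have hWW : B W W = 0 := by
    have := key 1 0
    have h : (1:ℤ) ^ 2 * B W W + 2 * 1 * 0 * B W x' + 0 ^ 2 * B x' x' = B W W := by ring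
    omega
  have hc : B W x' = 0 := by
    by_contra hne
    have h1 := key (|B x' x'| + 1) 1
    have h2 := key (-(|B x' x'| + 1)) 1
    rw [hWW] at h1 h2
    have h3 := neg_abs_le (B x' x')
    have h4 := abs_nonneg (B x' x')
    rcases lt_or_gt_of_ne hne with h | h
    · nlinarith
    · nlinarith
  have h5 : B W x' = q * B W x := by
    rw [hx', map_sub, map_zsmul, map_zsmul, hWL]
    simp
  rw [h5] at hc
  rcases mul_eq_zero.1 hc with h | h
  · omega
  · exact h

namespace PVar

variable {k : Type} [Field k] {n : ℕ} (X : PVar k n)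

/-- the form `x · y · v` with `x`, `y` in the positions `i ≠ j` -/
def form (v : Fin n → X.Pic) (i j : Fin n) (hij : i ≠ j) : X.Pic →+ X.Pic →+ ℤ :=
  AddMonoidHom.mk' (fun x => AddMonoidHom.mk'
    (fun y => X.inter (Function.update (Function.update v i x) j y))
    (fun y y' => by rw [MultilinearMap.map_update_add]))
    (fun x x' => by
      ext y
      simp only [AddMonoidHom.mk'_apply, AddMonoidHom.add_apply]
      rw [Function.update_comm hij, Function.update_comm hij, Function.update_comm hij,
        MultilinearMap.map_update_add])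

theorem form_apply (v : Fin n → X.Pic) (i j : Fin n) (hij : i ≠ j) (x y : X.Pic) :
    X.form v i j hij x y = X.inter (Function.update (Function.update v i x) j y) := rfl

theorem form_symm (v : Fin n → X.Pic) (i j : Fin n) (hij : i ≠ j) (x y : X.Pic) :
    X.form v i j hij x y = X.form v i j hij y x := by
  rw [form_apply, form_apply, ← X.inter_perm _ (Equiv.swap i j)]
  congr 1
  funext l
  by_cases hi : l = i
  · subst hi
    rw [Equiv.swap_apply_left, Function.update_self, Function.update_of_ne hij,
      Function.update_self]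
  · by_cases hj : l = j
    · subst hj
      rw [Equiv.swap_apply_right, Function.update_of_ne hij, Function.update_self,
        Function.update_self]
    · rw [Equiv.swap_apply_of_ne_of_ne hi hj, Function.update_of_ne hj, Function.update_of_ne hi,
        Function.update_of_ne hj, Function.update_of_ne hi]

theorem form_radical {v : Fin n → X.Pic} (hv : ∀ l, X.Nef (v l)) (i j : Fin n) (hij : i ≠ j)
    {L W : X.Pic} (hL : 0 < X.form v i j hij L L) (hLW : X.form v i j hij L W = 0)
    (hW : 0 ≤ X.form v i j hij W W) (x : X.Pic) : X.form v i j hij W x = 0 :=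
  radical (X.form v i j hij) (X.form_symm v i j hij)
    (fun x y hy => X.hodge v i j hij (fun l => hv l) x y hy) hL hLW hW x

/-- the number `L ^ i · A ^ (n - i)` depends only on `i` -/
theorem mon_eq_of_card (L A : X.Pic) {s s' : Finset (Fin n)} (h : s.card = s'.card) :
    X.mon L A s = X.mon L A s' := by
  have e : {x // x ∈ s'} ≃ {x // x ∈ s} := Finset.equivOfCardEq h.symm
  unfold mon
  rw [← X.inter_perm _ e.extendSubtype]
  congr 1
  funext l
  by_cases hl : l ∈ s'
  · rw [piecewise_eq_of_mem _ _ _ hl, piecewise_eq_of_mem _ _ _ (e.extendSubtype_mem l hl)]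
  · rw [piecewise_eq_of_notMem _ _ _ hl,
      piecewise_eq_of_notMem _ _ _ (e.extendSubtype_not_mem l hl)]

theorem update_piecewise {L A : X.Pic} {s : Finset (Fin n)} {l : Fin n} :
    Function.update (s.piecewise (fun _ => L) (fun _ => A)) l L =
      (insert l s).piecewise (fun _ => L) (fun _ => A) := by
  funext j
  by_cases h : j = l
  · subst h
    rw [Function.update_self, piecewise_eq_of_mem _ _ _ (mem_insert_self _ _)]
  · rw [Function.update_of_ne h]
    by_cases h1 : j ∈ s
    · rw [piecewise_eq_of_mem _ _ _ h1, piecewise_eq_of_mem _ _ _ (mem_insert_of_mem h1)]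
    · rw [piecewise_eq_of_notMem _ _ _ h1, piecewise_eq_of_notMem _ _ _ (by simp [h, h1])]

theorem update_piecewise' {L A : X.Pic} {s : Finset (Fin n)} {l : Fin n} (hl : l ∉ s) :
    Function.update (s.piecewise (fun _ => L) (fun _ => A)) l A =
      s.piecewise (fun _ => L) (fun _ => A) := by
  funext j
  by_cases h : j = l
  · subst h
    rw [Function.update_self, piecewise_eq_of_notMem _ _ _ hl]
  · rw [Function.update_of_ne h]

/-- `L ^ i · A ^ (n - i) > 0` for all `i ≤ ν (L)` -/
theorem mon_pos {L A : X.Pic} (hL : X.Nef L) (hA : X.Ample A) (s : Finset (Fin n))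
    (hs : s.card ≤ X.numDim L A) : 0 < X.mon L A s := by
  obtain ⟨s₀, hs₀, hpos⟩ := X.exists_numDim (L := L) hA
  have hν : X.numDim L A ≤ n := by
    rw [← hs₀]
    simpa using card_le_univ s₀
  obtain ⟨m, hm, hmA⟩ := X.exists_ample_sub A hA L
  have key : ∀ d : ℕ, ∀ s : Finset (Fin n), s.card + d = X.numDim L A → 0 < X.mon L A s := by
    intro d
    induction d with
    | zero =>
      intro s hs
      rw [X.mon_eq_of_card L A (show s.card = s₀.card by omega)]
      exact hpos
    | succ d ih =>
      intro s hs
      obtain ⟨l, hl⟩ : ∃ l, l ∉ s := by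
        by_contra hcon
        push Not at hcon
        have : s = univ := eq_univ_of_forall hcon
        rw [this, card_univ, Fintype.card_fin] at hs
        omega
      have h1 : 0 < X.mon L A (insert l s) := ih _ (by rw [card_insert_of_notMem hl]; omega)
      have h2 : 0 ≤ X.inter (Function.update (s.piecewise (fun _ => L) (fun _ => A)) l
          (m • A - L)) := by
        refine X.inter_nonneg _ fun j => ?_
        by_cases h : j = l
        · subst h
          rw [Function.update_self]
          exact X.nef_of_ample hmA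
        · rw [Function.update_of_ne h]
          exact X.nef_piecewise hL (X.nef_of_ample hA) s j
      rw [MultilinearMap.map_update_sub] at h2
      have h3 : X.inter (Function.update (s.piecewise (fun _ => L) (fun _ => A)) l (m • A)) =
          m * X.mon L A s := by
        have : (m • A : X.Pic) = (m : ℤ) • A := (natCast_zsmul A m).symm
        rw [this, MultilinearMap.map_update_smul, X.update_piecewise' hl]
        rfl
      rw [h3, X.update_piecewise] at h2
      have h4 : X.mon L A (insert l s) ≤ m * X.mon L A s := by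
        unfold mon at h2 ⊢
        linarith
      by_contra hcon
      push Not at hcon
      have : (m : ℤ) * X.mon L A s ≤ 0 :=
        mul_nonpos_of_nonneg_of_nonpos (Int.natCast_nonneg m) hcon
      omega
  exact key (X.numDim L A - s.card) s (by omega)

/-- **The Hodge chain.** Let `ν = ν (L) ≥ 1`. There is no prime divisor `W` such that
`L ^ (ν - 1) · W = 0` numerically and `W + m L` is nef for some `m`. -/
theorem no_divisor (Δ : Divisors X) {L A : X.Pic} (hL : X.Nef L) (hA : X.Ample A)
    (hν : 1 ≤ X.numDim L A) (W : X.Div) (m : ℕ) (hW : X.Nef (Δ.cls W + m • L))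
    (h0 : ∀ (v : Fin n → X.Pic) (j₀ : Fin n) (s : Finset (Fin n)), j₀ ∉ s → (∀ j ∈ s, v j = L) →
      s.card = X.numDim L A - 1 → X.inter (Function.update v j₀ (Δ.cls W)) = 0) : False := by
  have hAn := X.nef_of_ample hA
  obtain ⟨s₀, hs₀, -⟩ := X.exists_numDim (L := L) hA
  have hνn : X.numDim L A ≤ n := by
    rw [← hs₀]
    simpa using card_le_univ s₀
  have key : ∀ d k' : ℕ, k' + d = X.numDim L A - 1 → ∀ (s : Finset (Fin n)) (j₀ : Fin n),
      j₀ ∉ s → s.card = k' →
      X.inter (Function.update (s.piecewise (fun _ => L) (fun _ => A)) j₀ (Δ.cls W)) = 0 := by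
    intro d
    induction d with
    | zero =>
      intro k' hk s j₀ hj hs
      exact h0 _ j₀ s hj (fun j hj' => piecewise_eq_of_mem _ _ _ hj') (by omega)
    | succ d ih =>
      intro k' hk s j₀ hj hs
      obtain ⟨j₁, hj₁⟩ : ∃ j₁, j₁ ∉ insert j₀ s := by
        by_contra hcon
        push Not at hcon
        have : insert j₀ s = univ := eq_univ_of_forall hcon
        have h1 := congrArg Finset.card this
        rw [card_insert_of_notMem hj, card_univ, Fintype.card_fin] at h1
        omega
      have hne : j₀ ≠ j₁ := fun e => hj₁ (e ▸ mem_insert_self _ _)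
      have hj₁s : j₁ ∉ s := fun h => hj₁ (mem_insert_of_mem h)
      have hv := X.nef_piecewise hL hAn s
      have h1 : 0 < X.form (s.piecewise (fun _ => L) (fun _ => A)) j₀ j₁ hne L L := by
        rw [form_apply, X.update_piecewise, X.update_piecewise]
        refine X.mon_pos hL hA _ ?_
        rw [card_insert_of_notMem hj₁, card_insert_of_notMem hj]
        omega
      have h2 : X.form (s.piecewise (fun _ => L) (fun _ => A)) j₀ j₁ hne L (Δ.cls W) = 0 := by
        rw [form_apply, X.update_piecewise]
        exact ih (k' + 1) (by omega) _ _ hj₁ (by rw [card_insert_of_notMem hj]; omega)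
      have h3' : 0 ≤ X.form (s.piecewise (fun _ => L) (fun _ => A)) j₀ j₁ hne (Δ.cls W)
          (Δ.cls W + m • L) := by
        rw [form_apply, Function.update_comm hne]
        refine Δ.cls_nonneg W _ j₀ fun l => ?_
        by_cases hl1 : l = j₁
        · subst hl1
          rw [Function.update_self]
          exact hW
        · rw [Function.update_of_ne hl1]
          exact hv l
      have h3 : 0 ≤ X.form (s.piecewise (fun _ => L) (fun _ => A)) j₀ j₁ hne (Δ.cls W)
          (Δ.cls W) := by
        rw [map_add, map_nsmul, X.form_symm _ _ _ _ (Δ.cls W) L, h2, smul_zero, add_zero] at h3'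
        exact h3'
      have h4 := X.form_radical hv j₀ j₁ hne h1 h2 h3 A
      rw [form_apply, Function.update_comm hne, X.update_piecewise' hj₁s] at h4
      exact h4
  have hn : 0 < n := by omega
  have h5 := key (X.numDim L A - 1) 0 (by omega) ∅ ⟨0, hn⟩ (notMem_empty _) card_empty
  rw [piecewise_empty] at h5
  have h6 := Δ.cls_pos W A ⟨0, hn⟩ hA
  omega

end PVar

section

variable {k : Type} [Field k] {t : ℕ} {S : PVar k t} {N : S.Pic} {Z : S.Div}

/-- Two different curves through the very general point on which `N` has degree zero. -/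
theorem CycFam.two_curves (C : CycFam S N Z) : ∃ R R', C.s₀ ∈ C.on R ∧ C.s₀ ∈ C.on R' ∧
    C.on R ≠ C.on R' ∧ C.V.deg R (C.pb N) = 0 ∧ C.V.deg R' (C.pb N) = 0 := by
  obtain ⟨j₀⟩ := C.neJ
  obtain ⟨w₀, hw₀⟩ := C.cyc_ne j₀ C.s₀
  obtain ⟨R, hR, hRw⟩ := C.fibre j₀ w₀ hw₀
  obtain ⟨s, hs, j, w, hw, hws⟩ := C.finite R hR
  obtain ⟨R', hR', hR'w⟩ := C.fibre j w hw
  refine ⟨R, R', hR, hR', ?_, C.common R j₀ w₀ hRw, C.common R' j w hR'w⟩
  intro h
  rw [h] at hs
  exact hws (hR'w s hs)

/-- Over a curve `Z` in a surface `T''` some component is mapped onto a divisor of `X`. -/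
theorem CycFam.false_of_two (C : CycFam S N Z) (ht : t = 2) : False := by
  obtain ⟨R, R', -, -, h, -, -⟩ := C.two_curves
  exact h (C.curve ht R R')

/-- If no component over the surface `Z` in a threefold `T''` is mapped onto a divisor of `X`, then
`N` is numerically trivial on `Z`. -/
theorem CycFam.trivial_of_three (C : CycFam S N Z) (ht : t = 3) :
    ∀ E i, S.interD Z (Function.update (fun _ => N) i E) = 0 := by
  subst ht
  intro E i
  obtain ⟨R, R', hR, hR', hne, h0, h0'⟩ := C.two_curves
  obtain ⟨j, hj⟩ : ∃ j : Fin (3 - 1), j ≠ i := by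
    have : ∀ i : Fin 2, ∃ j : Fin 2, j ≠ i := by decide
    exact this i
  have hfin : ∀ l : Fin (3 - 1), l ≠ i → l = j := by
    have : ∀ i j l : Fin 2, j ≠ i → l ≠ i → l = j := by decide
    exact fun l hl => this i j l hj hl
  set v : Fin (3 - 1) → C.V.Pic := fun _ => C.pb N with hv
  have hvn : ∀ l, C.V.Nef (v l) := fun _ => C.nef
  -- the form against the class of a curve
  have hB : ∀ (Q : C.V.Curve) (x : C.V.Pic),
      C.V.form v j i hj x (C.clsR Q) = C.V.deg Q x := by
    intro Q x
    rw [C.V.form_apply, ← C.clsR_spec rfl Q x i]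
    congr 1
    funext l
    by_cases hl : l = i
    · subst hl
      rw [Function.update_self, Function.update_self]
    · rw [Function.update_of_ne hl, Function.update_of_ne hl, hfin l hl, Function.update_self]
  have hRn := C.clsR_nef rfl R hR
  have hRn' := C.clsR_nef rfl R' hR'
  set y : C.V.Pic := C.clsR R + C.clsR R' with hy
  have hyy : 0 < C.V.form v j i hj y y := by
    rw [hy, map_add, hB, hB, map_add, map_add]
    have h1 := hRn R
    have h2 := hRn' R'
    have h3 := C.clsR_pos rfl R R' hR hR' hne
    have h4 := C.clsR_pos rfl R' R hR' hR (Ne.symm hne)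
    linarith
  have hyN : C.V.form v j i hj y (C.pb N) = 0 := by
    rw [C.V.form_symm, hy, map_add, hB, hB, h0, h0', add_zero]
  have hNN : 0 ≤ C.V.form v j i hj (C.pb N) (C.pb N) := by
    rw [C.V.form_apply]
    refine C.V.inter_nonneg _ fun l => ?_
    by_cases hl : l = i
    · subst hl
      rw [Function.update_self]
      exact C.nef
    · rw [Function.update_of_ne hl, hfin l hl, Function.update_self]
      exact C.nef
  have h := C.V.form_radical hvn j i hj hyy hyN hNN (C.pb E)
  rw [C.V.form_apply] at h
  have h1 := C.proj (Function.update (fun _ => N) i E)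
  have h2 : (fun l => C.pb (Function.update (fun _ => N) i E l)) =
      Function.update (Function.update v j (C.pb N)) i (C.pb E) := by
    funext l
    by_cases hl : l = i
    · subst hl
      rw [Function.update_self, Function.update_self]
    · rw [Function.update_of_ne hl, Function.update_of_ne hl, hfin l hl, Function.update_self]
  rw [h2, h] at h1
  rcases mul_eq_zero.1 h1.symm with h3 | h3
  · have := C.δ_pos
    omega
  · exact h3

end

end Pool.NA
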