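import Pool.Agent.Work.MP_d0224f_na.Break

/-!
# The dimension of the quotient is the numerical dimension, and abundance
-/

set_option autoImplicit false

namespace Pool.NA

open Finset

section

variable {k : Type} [Field k] {n p : ℕ} {X : PVar k n} {K : X.Pic} {F : Fibration X K p}

/-- **The dimension of the quotient of `X` by the `L`-trivial rational curves is at most the
numerical dimension of `L`**, if `a L - b K` is ample. -/
theorem dim_le_numDim {L A : X.Pic} (hp : 2 ≤ p) (hL : X.Nef L) (hA : X.Ample A)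
    (hq : IsQuotient F L) (a b : ℕ) (hb : 0 < b) (hH : X.Ample (a • L - b • K)) :
    F.t ≤ X.numDim L A := by
  by_contra hcon
  push Not at hcon
  set H : X.Pic := a • L - b • K with hHdef
  obtain ⟨c, hc, hcH⟩ := X.exists_ample_sub H hH F.P
  have hn : 0 < n := by
    have := F.t_le
    omega
  have hbR : (1:ℝ) ≤ b := by exact_mod_cast hb
  have hcR : (1:ℝ) ≤ c := by exact_mod_cast hc
  have hnR : (1:ℝ) ≤ n := by exact_mod_cast hn
  have haR : (0:ℝ) ≤ a := by positivity
  set δ : ℝ := 1 / (17 * b * c * n * (a + 1)) with hδ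
  have hden : (0:ℝ) < 17 * b * c * n * (a + 1) := by positivity
  have hδ0 : 0 < δ := by positivity
  have hδeq : δ * (17 * b * c * n * (a + 1)) = 1 := by
    rw [hδ]
    field_simp
  obtain ⟨H', j₀, hH', -, -, hslope⟩ := small_slope F hL hA hcon δ hδ0
  obtain ⟨G, hG, hGcl⟩ := hq.closed
  obtain ⟨b₀, f, e, he, hdeg, htd, hpts⟩ := F.exists_ci (by omega) H' hH' j₀ G hG
  set td : ℤ := F.tdeg b₀ with htddef
  set l₀ : ℤ := F.degL f L with hl₀
  have htd0 : 0 < td := F.tdeg_pos b₀
  have hl₀0 : 0 ≤ l₀ := F.degL_nonneg f L hL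
  have hlt : (l₀ : ℝ) ≤ δ * td := by
    rw [htd, hl₀, hdeg L, hdeg F.P]
    push_cast
    have heR : (0:ℝ) ≤ e := by positivity
    calc (e : ℝ) * (X.inter (Function.update (fun _ => H') j₀ L) : ℝ)
        ≤ e * (δ * X.inter (Function.update (fun _ => H') j₀ F.P)) :=
          mul_le_mul_of_nonneg_left hslope heR
      _ = δ * (e * X.inter (Function.update (fun _ => H') j₀ F.P)) := by ring
  set g : ℕ := F.genus b₀ with hg
  -- a large power of Frobenius
  obtain ⟨m, hm⟩ := pow_unbounded_of_one_lt (4 * (b:ℝ) * c * (n * g + n + 1))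
    (show (1:ℝ) < p by exact_mod_cast (show 1 < p by omega))
  have htdR : (1:ℝ) ≤ td := by exact_mod_cast htd0
  set Q : ℝ := (p:ℝ) ^ m * td with hQ
  have hpm : (0:ℝ) < (p:ℝ) ^ m := by positivity
  have hQbig : 4 * (b:ℝ) * c * (n * g + n + 1) < Q := by
    have : (p:ℝ) ^ m ≤ Q := by
      rw [hQ]
      nlinarith
    linarith
  have hQ0 : 0 < Q := by positivity
  obtain ⟨f', hf'L, hf'min⟩ := exists_minimal (F := F) (L := L) (H := H) (X.nef_of_ample hH)
    (F.liftFrob f m)
  have hℓ : F.degL f' L = p ^ m * l₀ := by rw [hf'L, F.degL_liftFrob]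
  have htd' : F.tdeg (F.frob b₀ m) = p ^ m * td := F.tdeg_frob b₀ m
  set κ' : ℤ := - F.degL f' K with hκ'
  have hHdeg : F.degL f' H = a * F.degL f' L + b * κ' := by
    rw [hHdef, map_sub, map_nsmul, map_nsmul, nsmul_eq_mul, nsmul_eq_mul, hκ']
    ring
  have hPdeg : F.degL f' F.P ≤ c * F.degL f' H := by
    have h1 := F.degL_nonneg f' _ (X.nef_of_ample hcH)
    rw [map_sub, map_nsmul, nsmul_eq_mul] at h1
    linarith
  have hcdeg : F.tdeg (F.frob b₀ m) ≤ c * F.degL f' H := (F.tdeg_le f').trans hPdeg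
  have hQle : Q ≤ c * (a * (p ^ m * l₀) + b * κ') := by
    rw [htd', hHdeg, hℓ] at hcdeg
    rw [hQ]
    exact_mod_cast hcdeg
  have hℓR : (p:ℝ) ^ m * l₀ ≤ δ * Q := by
    rw [hQ]
    calc (p:ℝ) ^ m * l₀ ≤ (p:ℝ) ^ m * (δ * td) := mul_le_mul_of_nonneg_left hlt hpm.le
      _ = δ * ((p:ℝ) ^ m * td) := by ring
  -- `κ' ≥ Q / (2 b c)`
  have hδ17 : c * (a * δ) ≤ 1 / 17 := by
    have h2 : c * (a * δ) * (17 * b * n * (a + 1)) = a := by
      calc c * (a * δ) * (17 * b * n * (a + 1)) = a * (δ * (17 * b * c * n * (a + 1))) := by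
            ring
        _ = a := by rw [hδeq, mul_one]
    have h3 : 0 ≤ c * (a * δ) := by positivity
    have h4 : (17:ℝ) * (a + 1) ≤ 17 * b * n * (a + 1) := by
      have : (1:ℝ) ≤ b * n := by nlinarith
      nlinarith [mul_nonneg (sub_nonneg.2 this) (show (0:ℝ) ≤ a + 1 by positivity)]
    by_contra hc1
    push Not at hc1
    have h5 : (1/17:ℝ) * (17 * (a + 1)) < c * (a * δ) * (17 * b * n * (a + 1)) := by
      calc (1/17:ℝ) * (17 * (a + 1)) < c * (a * δ) * (17 * (a + 1)) :=
            mul_lt_mul_of_pos_right hc1 (by positivity)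
        _ ≤ c * (a * δ) * (17 * b * n * (a + 1)) := mul_le_mul_of_nonneg_left h4 h3
    rw [h2] at h5
    linarith
  have hδa : c * (a * (δ * Q)) ≤ Q / 2 := by
    calc c * (a * (δ * Q)) = (c * (a * δ)) * Q := by ring
      _ ≤ 1 / 17 * Q := mul_le_mul_of_nonneg_right hδ17 hQ0.le
      _ ≤ Q / 2 := by linarith
  have hκQ : Q / 2 ≤ c * (b * κ') := by
    have h1 : (c:ℝ) * (a * (p ^ m * l₀)) ≤ c * (a * (δ * Q)) := by
      refine mul_le_mul_of_nonneg_left (mul_le_mul_of_nonneg_left hℓR haR) (by positivity)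
    have h2 : (c:ℝ) * (a * (p ^ m * l₀) + b * κ') = c * (a * (p ^ m * l₀)) + c * (b * κ') := by
      ring
    rw [h2] at hQle
    linarith
  have hκbig : (2:ℝ) * (n * g + n + 1) < κ' := by
    have h1 : (b:ℝ) * c * (2 * (n * g + n + 1)) < b * c * κ' := by nlinarith
    have h2 : (0:ℝ) < b * c := by positivity
    exact lt_of_mul_lt_mul_left h1 h2.le
  have hκbigZ : 2 * ((n:ℤ) * g + n + 1) < κ' := by exact_mod_cast hκbig
  -- the number of fixed points
  set num : ℤ := κ' + n * (1 - g) - 1 with hnum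
  have hnum0 : 0 ≤ num := by
    rw [hnum]
    nlinarith
  have hnZ : (0:ℤ) < n := by exact_mod_cast hn
  set r : ℕ := (num / n).toNat with hr
  have hrZ : (r:ℤ) = num / n := Int.toNat_of_nonneg (Int.ediv_nonneg hnum0 hnZ.le)
  have hr1 : (n:ℤ) * r ≤ num := by
    rw [hrZ]
    exact Int.mul_ediv_self_le hnZ.ne'
  have hr2 : num < n * r + n := by
    rw [hrZ]
    have := Int.lt_mul_ediv_self_add (x := num) hnZ
    linarith
  have hrlow : κ' ≤ 2 * (n * r) := by
    have : κ' + n * (1 - g) - 1 < n * r + n := by rw [← hnum]; exact hr2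
    nlinarith
  have hrlowR : (κ':ℝ) ≤ 2 * (n * r) := by exact_mod_cast hrlow
  obtain ⟨B, hBcard, hBG⟩ := hpts m r
  have hr0 : 0 < r := by
    by_contra h
    have : r = 0 := by omega
    rw [this] at hrlow
    simp at hrlow
    nlinarith
  have hB0 : 0 < B.card := by omega
  obtain ⟨Y⟩ := F.exists_family f' B (fun x hx => F.large_sub G hG (hBG x hx)) (by
    rw [F.genus_frob, ← hg, hBcard]
    rw [hnum] at hr1
    linarith)
  rcases Y.αT_nonneg.eq_or_lt with h0 | h0
  · obtain ⟨f'', h1, h2⟩ := vertical_smaller hq hH Y (card_pos.1 hB0) h0.symm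
    exact absurd (hf'min f'' (h1.trans hf'L)) (not_le.2 h2)
  · refine moving_false hL hGcl Y hBG hB0 h0 δ hδ0 ?_
    rw [hℓ, hBcard]
    push_cast
    have h2 : Q / 2 ≤ 2 * (b * c * n * r) := by
      calc Q / 2 ≤ c * (b * κ') := hκQ
        _ ≤ c * (b * (2 * (n * r))) := by
            refine mul_le_mul_of_nonneg_left (mul_le_mul_of_nonneg_left hrlowR (by positivity))
              (by positivity)
        _ = 2 * (b * c * n * r) := by ring
    have h3 : (17:ℝ) * b * c * n ≤ 17 * b * c * n * (a + 1) := by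
      nlinarith [mul_nonneg (show (0:ℝ) ≤ 17 * b * c * n by positivity) haR]
    have h4 : 17 * δ * (b * c * n) ≤ 1 := by
      calc 17 * δ * (b * c * n) = δ * (17 * b * c * n) := by ring
        _ ≤ δ * (17 * b * c * n * (a + 1)) := mul_le_mul_of_nonneg_left h3 hδ0.le
        _ = 1 := hδeq
    have h5 : δ * (b * c * n) ≤ 1 / 17 := by linarith
    have hrR : (0:ℝ) < r := by exact_mod_cast hr0
    -- the degree of `P`
    have hPR : (F.degL f' F.P : ℝ) ≤ Q / 17 + 2 * (b * c * n) * r := by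
      have h6 : (F.degL f' F.P : ℝ) ≤ c * (a * (p ^ m * l₀) + b * κ') := by
        rw [hHdeg, hℓ] at hPdeg
        exact_mod_cast hPdeg
      have h7 : (c:ℝ) * (a * (p ^ m * l₀)) ≤ c * (a * (δ * Q)) := by
        refine mul_le_mul_of_nonneg_left (mul_le_mul_of_nonneg_left hℓR haR) (by positivity)
      have h8 : (c:ℝ) * (a * (δ * Q)) ≤ Q / 17 := by
        calc (c:ℝ) * (a * (δ * Q)) = (c * (a * δ)) * Q := by ring
          _ ≤ 1 / 17 * Q := mul_le_mul_of_nonneg_right hδ17 hQ0.le
          _ = Q / 17 := by ring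
      have h9 : (c:ℝ) * (b * κ') ≤ c * (b * (2 * (n * r))) := by
        refine mul_le_mul_of_nonneg_left (mul_le_mul_of_nonneg_left hrlowR (by positivity))
          (by positivity)
      calc (F.degL f' F.P : ℝ) ≤ c * (a * (p ^ m * l₀) + b * κ') := h6
        _ = c * (a * (p ^ m * l₀)) + c * (b * κ') := by ring
        _ ≤ Q / 17 + c * (b * (2 * (n * r))) := by linarith
        _ = Q / 17 + 2 * (b * c * n) * r := by ring
    have hδQ : δ * Q ≤ 4 / 17 * r := by
      calc δ * Q ≤ δ * (4 * (b * c * n * r)) := by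
            refine mul_le_mul_of_nonneg_left ?_ hδ0.le
            linarith
        _ = 4 * (δ * (b * c * n)) * r := by ring
        _ ≤ 4 * (1 / 17) * r := by
            refine mul_le_mul_of_nonneg_right ?_ hrR.le
            linarith
        _ = 4 / 17 * r := by ring
    have hδP : δ * (F.degL f' F.P : ℝ) ≤ 38 / 289 * r := by
      calc δ * (F.degL f' F.P : ℝ) ≤ δ * (Q / 17 + 2 * (b * c * n) * r) :=
            mul_le_mul_of_nonneg_left hPR hδ0.le
        _ = δ * Q / 17 + 2 * (δ * (b * c * n)) * r := by ring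
        _ ≤ (4 / 17 * r) / 17 + 2 * (1 / 17) * r := by
            have h10 : 2 * (δ * (b * c * n)) * r ≤ 2 * (1 / 17) * r := by
              refine mul_le_mul_of_nonneg_right ?_ hrR.le
              linarith
            linarith
        _ = 38 / 289 * r := by ring
    calc 2 * ((p:ℝ) ^ m * l₀ + δ * (F.degL f' F.P : ℝ))
        ≤ 2 * (4 / 17 * r + 38 / 289 * r) := by linarith
      _ < r := by linarith

end

section

variable {k : Type} [Field k] {n p : ℕ}

/-- The dimension of the quotient of `X` by the rational curves `C` with `L · C = 0` is the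
numerical dimension of `L`, if `L` is nef and `a L - b K_X` is ample. -/
theorem quotient_dim (hp : 2 ≤ p) (X : SmoothVar k n p) (L A : X.Pic) (hL : X.Nef L)
    (hA : X.Ample A) (a b : ℕ) (hb : 0 < b) (hH : X.Ample (a • L - b • X.K)) :
    ∃ F : Fibration X.toPVar X.K p, IsQuotient F L ∧ F.t = X.numDim L A ∧
      Nonempty (Descent X.Δ F L) := by
  obtain ⟨F, hq, hD⟩ := X.exists_quotient L hL
  have h1 : F.t ≤ X.numDim L A := dim_le_numDim hp hL hA hq a b hb hH
  obtain ⟨s, hs, hspos⟩ := X.exists_numDim (L := L) hA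
  have h2 : X.numDim L A ≤ F.t := by
    by_contra hcon
    push Not at hcon
    have := F.pow_zero L hL hq.triv (s.piecewise (fun _ => L) (fun _ => A)) s
      (fun j hj => piecewise_eq_of_mem _ _ _ hj) (by omega)
    unfold PVar.mon at hspos
    omega
  exact ⟨F, hq, le_antisymm h1 h2, hD⟩

theorem Descent.N_pos {X : PVar k n} {Δ : Divisors X} {K : X.Pic} {F : Fibration X K p}
    {L A : X.Pic} (D : Descent Δ F L) (hA : X.Ample A) (h : F.t = X.numDim L A) :
    0 < D.S.inter (fun _ => D.N) := by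
  obtain ⟨s, hs, hspos⟩ := X.exists_numDim (L := L) hA
  exact D.pos A hA s (hs.trans h.symm) hspos

/-- **Abundance.** Let `X` be smooth projective over an algebraically closed field of
characteristic `p > 0`, `L` nef and `a L - b K_X` ample. Then `κ (L) = ν (L)`, and this is the
dimension of the quotient of `X` by the rational curves `C` with `L · C = 0`. -/
theorem abundance (hp : 2 ≤ p) (X : SmoothVar k n p) (L A : X.Pic) (hL : X.Nef L)
    (hA : X.Ample A) (a b : ℕ) (hb : 0 < b) (hH : X.Ample (a • L - b • X.K)) :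
    Grows (fun m => X.h0 (m • L)) (X.numDim L A) ∧
      ∃ F : Fibration X.toPVar X.K p, IsQuotient F L ∧ F.t = X.numDim L A := by
  obtain ⟨F, hq, ht, ⟨D⟩⟩ := quotient_dim hp X L A hL hA a b hb hH
  refine ⟨?_, F, hq, ht⟩
  rw [← ht]
  exact D.grows (D.S.big_of_nef D.N D.nef (D.N_pos hA ht))

end

end Pool.NA
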